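import Mathlib

set_option autoImplicit false

/-!
Definitions for the regularity statement: graded Betti numbers and Castelnuovo-Mumford
regularity of `S/I`, for `S = K[x_1, ..., x_n]`, through the Koszul complex of the variables,
the degree-vector neighbourhood ideal of a graph, and chordal graphs.
-/

namespace Pool.Agent.H5Reg

open MvPolynomial

/-- The Koszul complex `K(x_1, ..., x_n; S/I)` with all homological degrees put together: a chain
is a function giving the coefficient in `S/I` of each basis element `e_T`, `T` a subset of the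
set of variables. -/
abbrev KChain {K : Type*} [Field K] {n : ℕ} (I : Ideal (MvPolynomial (Fin n) K)) :=
  Finset (Fin n) → MvPolynomial (Fin n) K ⧸ I

/-- The Koszul differential `m e_U ↦ ∑_{t ∈ U} (-1)^{#{u ∈ U : u < t}} x_t m e_{U \ t}`, written
out on coefficients: the coefficient of `e_T` in the differential of `f` is the sum over
`t ∉ T` of `(-1)^{#{u ∈ T : u < t}} x_t f(T ∪ {t})`. -/
noncomputable def kd {K : Type*} [Field K] {n : ℕ} (I : Ideal (MvPolynomial (Fin n) K))
    (f : KChain I) : KChain I := fun T =>
  ∑ t ∈ Tᶜ, (-1) ^ (T.filter (fun u => u < t)).card * Ideal.Quotient.mk I (X t) * f (insert t T)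

/-- `m` lies in the degree `d` part of `S/I`. -/
def InDeg {K : Type*} [Field K] {n : ℕ} (I : Ideal (MvPolynomial (Fin n) K)) (d : ℕ)
    (m : MvPolynomial (Fin n) K ⧸ I) : Prop :=
  ∃ p : MvPolynomial (Fin n) K, p.IsHomogeneous d ∧ Ideal.Quotient.mk I p = m

/-- The graded Betti number `β_{i, i+d}(S/I) = dim Tor_i(S/I, K)_{i+d}` is nonzero: some Koszul
cycle of homological degree `i` with coefficients in the degree `d` part of `S/I` (hence of total
degree `i + d`) is not a Koszul boundary. -/
def BettiNe {K : Type*} [Field K] {n : ℕ} (I : Ideal (MvPolynomial (Fin n) K)) (i d : ℕ) : Prop :=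
  ∃ f : KChain I, (∀ T, T.card ≠ i → f T = 0) ∧ (∀ T, InDeg I d (f T)) ∧ kd I f = 0 ∧
    ¬ ∃ g : KChain I, (∀ T, T.card ≠ i + 1 → g T = 0) ∧ kd I g = f

/-- The Castelnuovo-Mumford regularity of `S/I`: the supremum of the `d` such that some graded
Betti number `β_{i, i+d}(S/I)` is nonzero (`⊥` when there is none, that is when `S/I = 0`). -/
noncomputable def reg {K : Type*} [Field K] {n : ℕ} (I : Ideal (MvPolynomial (Fin n) K)) :
    WithBot ℕ∞ :=
  ⨆ (i : ℕ) (d : ℕ) (_ : BettiNe I i d), (d : WithBot ℕ∞)

/-- The neighbourhood ideal of the graph `G` on `n` vertices for its degree-vector: it is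
generated by the squarefree monomials `x_W` with `W` a set of `deg i` vertices of the closed
neighbourhood of a vertex `i`. -/
noncomputable def degNI (K : Type*) [Field K] {n : ℕ} (G : SimpleGraph (Fin n)) :
    Ideal (MvPolynomial (Fin n) K) :=
  Ideal.span {m | ∃ (i : Fin n) (W : Finset (Fin n)), (∀ j ∈ W, j = i ∨ G.Adj i j) ∧
    W.card = (G.neighborSet i).ncard ∧ m = ∏ j ∈ W, X j}

/-- A graph is chordal if every cycle of length at least four has a chord: two adjacent
vertices of the cycle such that the edge between them is not an edge of the cycle. -/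
def Chordal {V : Type*} (G : SimpleGraph V) : Prop :=
  ∀ (u : V) (c : G.Walk u u), c.IsCycle → 4 ≤ c.length →
    ∃ x ∈ c.support, ∃ y ∈ c.support, G.Adj x y ∧ s(x, y) ∉ c.edges

end Pool.Agent.H5Reg
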