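import Mathlib

set_option autoImplicit false

namespace Pool.Agent.H5Reg

variable {V : Type*} [Fintype V] [DecidableEq V] {K : Type*} [Field K]

/-- the boundary sum of a function on finite sets -/
def bd (σ : V → Finset V → K) (f : Finset V → K) (C : Finset V) : K :=
  ∑ t ∈ Cᶜ, σ t C * f (insert t C)

/-- `σ` is a sign function for the family `P`. -/
structure SignOn (P : Finset V → Prop) (σ : V → Finset V → K) : Prop where
  ne : ∀ (C : Finset V) (t : V), t ∉ C → P C → P (insert t C) → σ t C ≠ 0
  rel : ∀ (C : Finset V) (s t : V), s ≠ t → s ∉ C → t ∉ C → P C → P (insert s (insert t C)) →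
    σ t (insert s C) * σ s C = - (σ s (insert t C) * σ t C)

/-- convexity of a family -/
def Conv (P : Finset V → Prop) : Prop :=
  ∀ (A B C : Finset V), P A → P C → A ⊆ B → B ⊆ C → P B

/-- `f` is a chain of size `c` on `P` -/
def Chain (P : Finset V → Prop) (c : ℕ) (f : Finset V → K) : Prop :=
  ∀ C, f C ≠ 0 → P C ∧ C.card = c

/-- vanishing of the homology of the family `P` in size `c` -/
def Van (P : Finset V → Prop) (σ : V → Finset V → K) (c : ℕ) : Prop :=
  ∀ f : Finset V → K, Chain P c f → (∀ C, P C → bd σ f C = 0) →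
    ∃ g : Finset V → K, Chain P (c + 1) g ∧ ∀ C, P C → bd σ g C = f C

omit [Fintype V] in
lemma SignOn.mono {P Q : Finset V → Prop} {σ : V → Finset V → K} (h : SignOn P σ)
    (hQ : ∀ C, Q C → P C) : SignOn Q σ where
  ne C t ht h1 h2 := h.ne C t ht (hQ _ h1) (hQ _ h2)
  rel C s t hst hs ht h1 h2 := h.rel C s t hst hs ht (hQ _ h1) (hQ _ h2)

lemma bd_add (σ : V → Finset V → K) (f g : Finset V → K) (C : Finset V) :
    bd σ (fun X => f X + g X) C = bd σ f C + bd σ g C := by
  unfold bd
  rw [← Finset.sum_add_distrib]
  apply Finset.sum_congr rfl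
  intro t _
  ring

lemma bd_sub (σ : V → Finset V → K) (f g : Finset V → K) (C : Finset V) :
    bd σ (fun X => f X - g X) C = bd σ f C - bd σ g C := by
  unfold bd
  rw [← Finset.sum_sub_distrib]
  apply Finset.sum_congr rfl
  intro t _
  ring

lemma bd_congr (σ : V → Finset V → K) {f g : Finset V → K} {C : Finset V}
    (h : ∀ t, t ∉ C → σ t C * f (insert t C) = σ t C * g (insert t C)) :
    bd σ f C = bd σ g C := by
  unfold bd
  apply Finset.sum_congr rfl
  intro t ht
  exact h t (by simpa using ht)

lemma bd_zero (σ : V → Finset V → K) {f : Finset V → K} {C : Finset V}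
    (h : ∀ t, t ∉ C → f (insert t C) = 0) : bd σ f C = 0 := by
  unfold bd
  apply Finset.sum_eq_zero
  intro t ht
  rw [h t (by simpa using ht), mul_zero]

open Classical in
/-- restriction of a function to a family -/
noncomputable def res (P : Finset V → Prop) (f : Finset V → K) (C : Finset V) : K :=
  if P C then f C else 0

omit [Fintype V] [DecidableEq V] in
lemma res_pos {P : Finset V → Prop} {f : Finset V → K} {C : Finset V} (h : P C) :
    res P f C = f C := by simp [res, h]

omit [Fintype V] [DecidableEq V] in
lemma res_neg {P : Finset V → Prop} {f : Finset V → K} {C : Finset V} (h : ¬ P C) :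
    res P f C = 0 := by simp [res, h]

/-- the boundary restricted to `P` -/
noncomputable def bdP (P : Finset V → Prop) (σ : V → Finset V → K) (f : Finset V → K) :
    Finset V → K := res P (bd σ f)

omit [Fintype V] [DecidableEq V] in
lemma chain_res {P Q : Finset V → Prop} {c : ℕ} {f : Finset V → K} (hf : Chain P c f) :
    Chain Q c (res Q f) := by
  intro C hC
  by_cases h : Q C
  · rw [res_pos h] at hC
    exact ⟨h, (hf C hC).2⟩
  · rw [res_neg h] at hC
    exact absurd rfl hC

lemma chain_bdP {P : Finset V → Prop} {σ : V → Finset V → K} {c : ℕ} {f : Finset V → K}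
    (hf : Chain P (c + 1) f) : Chain P c (bdP P σ f) := by
  intro C hC
  unfold bdP at hC
  by_cases h : P C
  · refine ⟨h, ?_⟩
    rw [res_pos h] at hC
    by_contra hcard
    apply hC
    apply bd_zero
    intro t ht
    by_contra hne
    have := (hf _ hne).2
    rw [Finset.card_insert_of_notMem ht] at this
    omega
  · rw [res_neg h] at hC
    exact absurd rfl hC

/-- `∂ ∘ ∂ = 0` -/
lemma bd_bdP {P : Finset V → Prop} (hP : Conv P) {σ : V → Finset V → K} (hσ : SignOn P σ)
    {f : Finset V → K} (hf : ∀ C, f C ≠ 0 → P C) {C : Finset V} (hC : P C) :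
    bd σ (bdP P σ f) C = 0 := by
  have h1 : bd σ (bdP P σ f) C =
      ∑ t ∈ Cᶜ, ∑ s ∈ (insert t C)ᶜ, σ t C * (σ s (insert t C) * f (insert s (insert t C))) := by
    unfold bd
    apply Finset.sum_congr rfl
    intro t ht
    have htC : t ∉ C := by simpa using ht
    by_cases hp : P (insert t C)
    · unfold bdP
      rw [res_pos hp]
      unfold bd
      rw [Finset.mul_sum]
    · unfold bdP
      rw [res_neg hp, mul_zero]
      symm
      apply Finset.sum_eq_zero
      intro s hs
      have : f (insert s (insert t C)) = 0 := by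
        by_contra hne
        exact hp (hP C _ _ hC (hf _ hne) (Finset.subset_insert _ _) (Finset.subset_insert _ _))
      rw [this, mul_zero, mul_zero]
  rw [h1]
  -- pair up (s,t) and (t,s)
  rw [Finset.sum_sigma']
  apply Finset.sum_involution (fun (x : (_ : V) × V) _ => (⟨x.2, x.1⟩ : (_ : V) × V))
  · rintro ⟨t, s⟩ hx
    simp only [Finset.mem_sigma, Finset.mem_compl, Finset.mem_insert, not_or] at hx
    obtain ⟨htC, hst, hsC⟩ := hx
    simp only
    rw [Finset.insert_comm t s C]
    by_cases hz : f (insert s (insert t C)) = 0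
    · rw [hz]; ring
    · have := hσ.rel C s t hst hsC htC hC (hf _ hz)
      linear_combination (f (insert s (insert t C))) * this
  · rintro ⟨t, s⟩ hx _ h
    simp only [Finset.mem_sigma, Finset.mem_compl, Finset.mem_insert, not_or] at hx
    have := congrArg Sigma.fst h
    exact hx.2.1 this
  · rintro ⟨t, s⟩ hx
    simp only [Finset.mem_sigma, Finset.mem_compl, Finset.mem_insert, not_or] at hx ⊢
    exact ⟨hx.2.2, Ne.symm hx.2.1, hx.1⟩
  · rintro ⟨t, s⟩ hx
    rfl

/-- vanishing for sub family and quotient family gives vanishing -/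
lemma van_ext {P P1 P2 : Finset V → Prop} {σ : V → Finset V → K} {c : ℕ} (hP : Conv P)
    (hσ : SignOn P σ) (hcov : ∀ C, P C ↔ P1 C ∨ P2 C) (hdis : ∀ C, P1 C → ¬ P2 C)
    (hcl : ∀ C t, t ∉ C → P1 (insert t C) → P C → P1 C)
    (h1 : Van P1 σ c) (h2 : Van P2 σ c) : Van P σ c := by
  intro f hf hcyc
  have hP1 : ∀ C, P1 C → P C := fun C h => (hcov C).2 (Or.inl h)
  have hP2 : ∀ C, P2 C → P C := fun C h => (hcov C).2 (Or.inr h)
  obtain ⟨g2, hg2, hg2'⟩ := h2 (res P2 f) (chain_res hf) (by
    intro C hC
    rw [← hcyc C (hP2 C hC)]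
    apply bd_congr
    intro t ht
    by_cases hz : f (insert t C) = 0
    · rw [hz]
      by_cases h : P2 (insert t C)
      · rw [res_pos h, hz]
      · rw [res_neg h]
    · have hP' := (hf _ hz).1
      rcases (hcov _).1 hP' with h | h
      · exact absurd hC (hdis C (hcl C t ht h (hP2 C hC)))
      · rw [res_pos h])
  -- f - ∂_P g2 lives on P1
  have hg2c : Chain P (c + 1) g2 := fun C hC => ⟨hP2 C (hg2 C hC).1, (hg2 C hC).2⟩
  obtain ⟨g1, hg1, hg1'⟩ := h1 (fun C => f C - bdP P σ g2 C) (by
    intro C hC
    beta_reduce at hC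
    by_cases hPC : P C
    · have hcard : C.card = c := by
        by_contra hcard
        apply hC
        have e1 : f C = 0 := by
          by_contra h; exact hcard (hf C h).2
        have e2 : bdP P σ g2 C = 0 := by
          by_contra h; exact hcard (chain_bdP hg2c C h).2
        rw [e1, e2, sub_zero]
      refine ⟨?_, hcard⟩
      rcases (hcov C).1 hPC with h | h
      · exact h
      · exfalso
        apply hC
        have e := hg2' C h
        rw [res_pos h] at e
        unfold bdP
        rw [res_pos hPC, e, sub_self]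
    · exfalso
      apply hC
      have e1 : f C = 0 := by
        by_contra h; exact hPC (hf C h).1
      unfold bdP
      rw [res_neg hPC, e1, sub_zero]) (by
    intro C hC
    rw [bd_sub, hcyc C (hP1 C hC), bd_bdP hP hσ (fun C h => (hg2c C h).1) (hP1 C hC), sub_zero])
  refine ⟨fun C => g1 C + g2 C, ?_, ?_⟩
  · intro C hC
    beta_reduce at hC
    by_cases h : g1 C = 0
    · have : g2 C ≠ 0 := by
        intro h'; apply hC; rw [h, h', add_zero]
      exact hg2c C this
    · exact ⟨hP1 C (hg1 C h).1, (hg1 C h).2⟩
  · intro C hC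
    rw [bd_add]
    rcases (hcov C).1 hC with h | h
    · rw [hg1' C h]
      unfold bdP
      rw [res_pos hC]
      ring
    · have e1 : bd σ g1 C = 0 := by
        apply bd_zero
        intro t ht
        by_contra hne
        exact hdis C (hcl C t ht (hg1 _ hne).1 hC) h
      rw [e1, hg2' C h, res_pos h, zero_add]

/-- vanishing for the total family and (one size lower) for the sub family gives vanishing for
the quotient family -/
lemma van_quot {P P1 P2 : Finset V → Prop} {σ : V → Finset V → K} {c : ℕ} (hP : Conv P)
    (hσ : SignOn P σ) (hcov : ∀ C, P C ↔ P1 C ∨ P2 C) (hdis : ∀ C, P1 C → ¬ P2 C)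
    (hcl : ∀ C t, t ∉ C → P1 (insert t C) → P C → P1 C)
    (h : Van P σ c) (h1 : ∀ c', c' + 1 = c → Van P1 σ c') : Van P2 σ c := by
  intro f hf hcyc
  have hP1 : ∀ C, P1 C → P C := fun C h => (hcov C).2 (Or.inl h)
  have hP2 : ∀ C, P2 C → P C := fun C h => (hcov C).2 (Or.inr h)
  have hfP : Chain P c f := fun C hC => ⟨hP2 C (hf C hC).1, (hf C hC).2⟩
  have hfin : ∀ g : Finset V → K, Chain P (c + 1) g → (∀ C, P2 C → bd σ g C = f C) →
      ∃ g : Finset V → K, Chain P2 (c + 1) g ∧ ∀ C, P2 C → bd σ g C = f C := by
    intro g hg hg'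
    refine ⟨res P2 g, chain_res hg, ?_⟩
    intro C hC
    rw [← hg' C hC]
    apply bd_congr
    intro t ht
    by_cases hz : g (insert t C) = 0
    · rw [hz]
      by_cases h : P2 (insert t C)
      · rw [res_pos h, hz]
      · rw [res_neg h]
    · have hP' := (hg _ hz).1
      rcases (hcov _).1 hP' with h | h
      · exact absurd hC (hdis C (hcl C t ht h (hP2 C hC)))
      · rw [res_pos h]
  rcases c with _ | c
  · obtain ⟨g, hg, hg'⟩ := h f hfP (by
      intro C _
      apply bd_zero
      intro t ht
      by_contra hne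
      have := (hf _ hne).2
      rw [Finset.card_insert_of_notMem ht] at this
      omega)
    exact hfin g hg (fun C hC => hg' C (hP2 C hC))
  · -- ∂_P f lives on P1
    obtain ⟨u, hu, hu'⟩ := h1 c rfl (bdP P σ f) (by
      intro C hC
      have hc := chain_bdP hfP C hC
      refine ⟨?_, hc.2⟩
      rcases (hcov C).1 hc.1 with h | h
      · exact h
      · exfalso
        apply hC
        unfold bdP
        rw [res_pos hc.1, hcyc C h]) (by
      intro C hC
      exact bd_bdP hP hσ (fun C h => (hfP C h).1) (hP1 C hC))
    obtain ⟨g, hg, hg'⟩ := h (fun C => f C - u C) (by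
      intro C hC
      beta_reduce at hC
      by_cases h : f C = 0
      · have : u C ≠ 0 := by
          intro h'; apply hC; rw [h, h', sub_zero]
        exact ⟨hP1 C (hu C this).1, (hu C this).2⟩
      · exact hfP C h) (by
      intro C hC
      rw [bd_sub]
      rcases (hcov C).1 hC with h | h
      · rw [hu' C h]
        unfold bdP
        rw [res_pos hC, sub_self]
      · have e1 : bd σ u C = 0 := by
          apply bd_zero
          intro t ht
          by_contra hne
          exact hdis C (hcl C t ht (hu _ hne).1 hC) h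
        rw [e1, hcyc C h, sub_zero])
    apply hfin g hg
    intro C hC
    rw [hg' C (hP2 C hC)]
    have : u C = 0 := by
      by_contra hne
      exact hdis C (hu C hne).1 hC
    rw [this, sub_zero]

/-- cone families are acyclic -/
lemma van_cone {P : Finset V → Prop} {σ : V → Finset V → K} (hσ : SignOn P σ) (s : V)
    (h1 : ∀ C, P C → P (insert s C)) (h2 : ∀ C, P C → P (C.erase s)) (c : ℕ) : Van P σ c := by
  intro f hf hcyc
  refine ⟨fun C => if s ∈ C then (σ s (C.erase s))⁻¹ * f (C.erase s) else 0, ?_, ?_⟩
  · intro C hC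
    by_cases hs : s ∈ C
    · simp only [hs, if_true] at hC
      have hf' := hf (C.erase s) (right_ne_zero_of_mul hC)
      refine ⟨?_, ?_⟩
      · have := h1 _ hf'.1
        rwa [Finset.insert_erase hs] at this
      · rw [← hf'.2, Finset.card_erase_add_one hs]
    · simp [hs] at hC
  · intro C hC
    by_cases hs : s ∈ C
    · set C' := C.erase s with hC'
      have hsC' : s ∉ C' := Finset.notMem_erase s C
      have hCC' : insert s C' = C := Finset.insert_erase hs
      have hPC' : P C' := h2 C hC
      have hne : σ s C' ≠ 0 := hσ.ne C' s hsC' hPC' (by rw [hCC']; exact hC)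
      have hcy := hcyc C' hPC'
      unfold bd at hcy ⊢
      have e : C'ᶜ = insert s Cᶜ := by
        rw [← hCC', Finset.compl_insert, Finset.insert_erase]
        simpa using hsC'
      rw [e, Finset.sum_insert (by simpa using hs), hCC'] at hcy
      have e2 : ∀ t ∈ Cᶜ, σ t C * (if s ∈ insert t C then
          (σ s ((insert t C).erase s))⁻¹ * f ((insert t C).erase s) else 0)
          = - (σ s C')⁻¹ * (σ t C' * f (insert t C')) := by
        intro t ht
        have htC : t ∉ C := by simpa using ht
        have hts : t ≠ s := fun h => htC (h ▸ hs)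
        have htC' : t ∉ C' := fun h => htC (Finset.mem_of_mem_erase h)
        have e3 : (insert t C).erase s = insert t C' := by
          rw [Finset.erase_insert_of_ne hts]
        rw [if_pos (Finset.mem_insert_of_mem hs), e3]
        by_cases hz : f (insert t C') = 0
        · rw [hz]; ring
        · have hP' := (hf _ hz).1
          have hP'' := h1 _ hP'
          have hr := hσ.rel C' s t (Ne.symm hts) hsC' htC' hPC' hP''
          rw [hCC'] at hr
          have hne2 : σ s (insert t C') ≠ 0 := by
            apply hσ.ne (insert t C') s _ hP' hP''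
            simp [hsC', Ne.symm hts]
          have hr2 : σ t C * (σ s (insert t C'))⁻¹ = - (σ s C')⁻¹ * σ t C' := by
            field_simp
            linear_combination hr
          rw [← mul_assoc, hr2]
          ring
      rw [Finset.sum_congr rfl e2, ← Finset.mul_sum]
      have : ∑ t ∈ Cᶜ, σ t C' * f (insert t C') = - (σ s C' * f C) := by
        linear_combination hcy
      rw [this]
      field_simp
    · have hP' := h1 C hC
      have hne : σ s C ≠ 0 := hσ.ne C s hs hC hP'
      unfold bd
      beta_reduce
      rw [Finset.sum_eq_single s]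
      · rw [if_pos (Finset.mem_insert_self _ _), Finset.erase_insert hs]
        field_simp
      · intro t ht hts
        have : s ∉ insert t C := by simp [hs, Ne.symm hts]
        rw [if_neg this, mul_zero]
      · intro h
        exact absurd (by simpa using hs) h

/-- shifting by one forced element -/
lemma van_shift {P : Finset V → Prop} {σ : V → Finset V → K} (s : V)
    (hs : ∀ C, P C → s ∈ C) (c : ℕ)
    (h : Van (fun C => s ∉ C ∧ P (insert s C)) (fun t C => σ t (insert s C)) c) :
    Van P σ (c + 1) := by
  intro f hf hcyc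
  have hbd : ∀ (f' : Finset V → K) (C : Finset V), s ∉ C →
      bd (fun t C => σ t (insert s C)) (fun C => if s ∈ C then 0 else f' (insert s C)) C =
        bd σ f' (insert s C) := by
    intro f' C hC
    unfold bd
    beta_reduce
    have e : Cᶜ = insert s (insert s C)ᶜ := by
      rw [Finset.compl_insert, Finset.insert_erase]
      simpa using hC
    rw [e, Finset.sum_insert (by simp)]
    rw [if_pos (Finset.mem_insert_self _ _), mul_zero, zero_add]
    apply Finset.sum_congr rfl
    intro t ht
    simp only [Finset.mem_compl, Finset.mem_insert, not_or] at ht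
    have : s ∉ insert t C := by simp [hC, Ne.symm ht.1]
    rw [if_neg this, Finset.insert_comm]
  obtain ⟨g, hg, hg'⟩ := h (fun C => if s ∈ C then 0 else f (insert s C)) (by
    intro C hC
    by_cases hsC : s ∈ C
    · simp [hsC] at hC
    · simp only [hsC, if_false] at hC
      have := hf _ hC
      rw [Finset.card_insert_of_notMem hsC] at this
      exact ⟨⟨hsC, this.1⟩, by omega⟩) (by
    rintro C ⟨hsC, hC⟩
    rw [hbd f C hsC]
    exact hcyc _ hC)
  refine ⟨fun C => if s ∈ C then g (C.erase s) else 0, ?_, ?_⟩
  · intro C hC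
    by_cases hsC : s ∈ C
    · simp only [hsC, if_true] at hC
      have := hg _ hC
      beta_reduce at this
      rw [Finset.insert_erase hsC] at this
      refine ⟨this.1.2, ?_⟩
      rw [← this.2, Finset.card_erase_add_one hsC]
    · simp [hsC] at hC
  · intro C hC
    have hsC := hs C hC
    have hPC : s ∉ C.erase s ∧ P (insert s (C.erase s)) :=
      ⟨Finset.notMem_erase s C, by rw [Finset.insert_erase hsC]; exact hC⟩
    have h1 := hg' _ hPC
    rw [if_neg hPC.1, Finset.insert_erase hsC] at h1
    rw [← h1]
    have h2 := hbd (fun C => if s ∈ C then g (C.erase s) else 0) (C.erase s) hPC.1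
    rw [Finset.insert_erase hsC] at h2
    rw [← h2]
    apply bd_congr
    intro t ht
    by_cases hts : t = s
    · subst hts
      rw [if_pos (Finset.mem_insert_self _ _)]
      have : g (insert t (C.erase t)) = 0 := by
        by_contra hne
        exact (hg _ hne).1.1 (Finset.mem_insert_self _ _)
      rw [this]
    · have : s ∉ insert t (C.erase s) := by
        simp [Ne.symm hts]
      rw [if_neg this, if_pos (Finset.mem_insert_self _ _), Finset.erase_insert this]

omit [Fintype V] in
lemma signOn_shift {P : Finset V → Prop} {σ : V → Finset V → K} (hσ : SignOn P σ) (s : V) :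
    SignOn (fun C => s ∉ C ∧ P (insert s C)) (fun t C => σ t (insert s C)) where
  ne C t ht h1 h2 := by
    have hst : t ≠ s := by
      rintro rfl
      exact h2.1 (Finset.mem_insert_self _ _)
    apply hσ.ne (insert s C) t (by simp [ht, hst]) h1.2
    rw [Finset.insert_comm]
    exact h2.2
  rel C u t hut hu ht h1 h2 := by
    have hus : u ≠ s := by
      rintro rfl
      exact h2.1 (Finset.mem_insert_self _ _)
    have hts : t ≠ s := by
      rintro rfl
      exact h2.1 (Finset.mem_insert_of_mem (Finset.mem_insert_self _ _))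
    have := hσ.rel (insert s C) u t hut (by simp [hu, hus]) (by simp [ht, hts]) h1.2 (by
      rw [Finset.insert_comm t s C, Finset.insert_comm u s]
      exact h2.2)
    rw [Finset.insert_comm s u C, Finset.insert_comm s t C]
    exact this

omit [DecidableEq V] in
lemma van_of_not {P : Finset V → Prop} {σ : V → Finset V → K} {c : ℕ} [DecidableEq V]
    (h : ∀ C, C.card = c → ¬ P C) : Van P σ c := by
  intro f hf _
  refine ⟨fun _ => 0, fun C hC => absurd rfl hC, fun C hC => ?_⟩
  rw [bd_zero σ (fun _ _ => rfl)]
  by_contra hne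
  have := hf C (Ne.symm hne)
  exact h C this.2 this.1

/-- a disjoint union of families without interaction -/
lemma van_label {ι : Type*} {X : Finset ι} {P : Finset V → Prop} {Q : ι → Finset V → Prop}
    {σ : V → Finset V → K} {c : ℕ}
    (hcov : ∀ C, P C ↔ ∃ x ∈ X, Q x C) (hdis : ∀ C x y, Q x C → Q y C → x = y)
    (hcl : ∀ C t x, t ∉ C → Q x (insert t C) → P C → Q x C)
    (h : ∀ x ∈ X, Van (Q x) σ c) : Van P σ c := by
  classical
  intro f hf hcyc
  have key : ∀ x ∈ X, ∃ g : Finset V → K, Chain (Q x) (c + 1) g ∧
      ∀ C, Q x C → bd σ g C = f C := by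
    intro x hx
    obtain ⟨g, hg, hg'⟩ := h x hx (res (Q x) f) (chain_res hf) (by
      intro C hC
      have hPC : P C := (hcov C).2 ⟨x, hx, hC⟩
      rw [← hcyc C hPC]
      apply bd_congr
      intro t ht
      by_cases hz : f (insert t C) = 0
      · rw [hz]
        by_cases h : Q x (insert t C)
        · rw [res_pos h, hz]
        · rw [res_neg h]
      · obtain ⟨y, hy, hQ⟩ := (hcov _).1 (hf _ hz).1
        have := hdis C x y hC (hcl C t y ht hQ hPC)
        rw [this, res_pos hQ])
    exact ⟨g, hg, fun C hC => by rw [hg' C hC, res_pos hC]⟩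
  choose! g hg hg' using key
  refine ⟨fun C => ∑ x ∈ X, g x C, ?_, ?_⟩
  · intro C hC
    obtain ⟨x, hx, hne⟩ := Finset.exists_ne_zero_of_sum_ne_zero hC
    exact ⟨(hcov C).2 ⟨x, hx, (hg x hx C hne).1⟩, (hg x hx C hne).2⟩
  · intro C hC
    obtain ⟨x, hx, hQ⟩ := (hcov C).1 hC
    rw [← hg' x hx C hQ]
    apply bd_congr
    intro t ht
    congr 1
    apply Finset.sum_eq_single_of_mem x hx
    intro y hy hyx
    by_contra hne
    exact hyx (hdis C y x (hcl C t y ht (hg y hy _ hne).1 hC) hQ)

lemma van_congr {P Q : Finset V → Prop} {σ : V → Finset V → K} {c : ℕ} (h : ∀ C, P C ↔ Q C)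
    (hP : Van P σ c) : Van Q σ c := by
  have : P = Q := funext fun C => propext (h C)
  rwa [← this]

end Pool.Agent.H5Reg
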