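import Mathlib
import Pool.Agent.H5Reg.Cplx

set_option autoImplicit false

namespace Pool.Agent.H5Reg

open Classical

variable {V : Type*} [Fintype V] [DecidableEq V] {K : Type*} [Field K]

/-- closed neighbourhood as a finset -/
noncomputable def cn (G : SimpleGraph V) (v : V) : Finset V :=
  Finset.univ.filter (fun u => u = v ∨ G.Adj v u)

lemma mem_cn {G : SimpleGraph V} {u v : V} : u ∈ cn G v ↔ u = v ∨ G.Adj v u := by
  simp [cn]

lemma mem_cn_comm {G : SimpleGraph V} {u v : V} : u ∈ cn G v ↔ v ∈ cn G u := by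
  rw [mem_cn, mem_cn, G.adj_comm, eq_comm]

lemma self_mem_cn {G : SimpleGraph V} {v : V} : v ∈ cn G v := by simp [mem_cn]

/-- the families: sets `C` with `D ⊆ C ⊆ U ∪ Z`, passive condition on `C ∩ Z` and
`r v ≤ |C ∩ U ∩ N[v]|` for all `v`. -/
def Fam (G : SimpleGraph V) (Z : Finset V) (M : Finset V → Prop) (U : Finset V) (r : V → ℕ)
    (D C : Finset V) : Prop :=
  C ⊆ U ∪ Z ∧ D ⊆ C ∧ M (C ∩ Z) ∧ ∀ v, r v ≤ (C ∩ U ∩ cn G v).card

variable {G : SimpleGraph V} {Z : Finset V} {M : Finset V → Prop} {q : ℕ}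

lemma fam_conv (hM : ∀ A B, M A → A ⊆ B → M B) (U : Finset V) (r : V → ℕ) (D : Finset V) :
    Conv (Fam G Z M U r D) := by
  intro A B C hA hC hAB hBC
  refine ⟨hBC.trans hC.1, hA.2.1.trans hAB, hM _ _ hA.2.2.1 (Finset.inter_subset_inter_right hAB),
    fun v => (hA.2.2.2 v).trans (Finset.card_le_card ?_)⟩
  exact Finset.inter_subset_inter_right (Finset.inter_subset_inter_right hAB)

/-- shifting: forced element `s ∈ U` -/
lemma fam_insert {U D C : Finset V} {r : V → ℕ} {s : V} (hsU : s ∈ U) (hsZ : s ∉ Z) :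
    (s ∉ C ∧ Fam G Z M U r D (insert s C)) ↔
      Fam G Z M (U.erase s) (fun v => if s ∈ cn G v then r v - 1 else r v) (D.erase s) C := by
  have hcard : s ∉ C → ∀ v, (insert s C ∩ U ∩ cn G v).card =
      (C ∩ U.erase s ∩ cn G v).card + if s ∈ cn G v then 1 else 0 := by
    intro hsC v
    by_cases hv : s ∈ cn G v
    · rw [if_pos hv]
      have e : insert s C ∩ U ∩ cn G v = insert s (C ∩ U.erase s ∩ cn G v) := by
        ext x
        simp only [Finset.mem_inter, Finset.mem_insert, Finset.mem_erase]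
        constructor
        · rintro ⟨⟨h1 | h1, h2⟩, h3⟩
          · exact Or.inl h1
          · by_cases hx : x = s
            · exact Or.inl hx
            · exact Or.inr ⟨⟨h1, hx, h2⟩, h3⟩
        · rintro (h | ⟨⟨h1, h2, h3⟩, h4⟩)
          · subst h; exact ⟨⟨Or.inl rfl, hsU⟩, hv⟩
          · exact ⟨⟨Or.inr h1, h3⟩, h4⟩
      rw [e, Finset.card_insert_of_notMem (by simp)]
    · rw [if_neg hv, add_zero]
      congr 1
      ext x
      simp only [Finset.mem_inter, Finset.mem_insert, Finset.mem_erase]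
      constructor
      · rintro ⟨⟨h1 | h1, h2⟩, h3⟩
        · subst h1; exact absurd h3 hv
        · refine ⟨⟨h1, ?_, h2⟩, h3⟩
          rintro rfl; exact hv h3
      · rintro ⟨⟨h1, h2, h3⟩, h4⟩
        exact ⟨⟨Or.inr h1, h3⟩, h4⟩
  have hZ : insert s C ∩ Z = C ∩ Z := by
    rw [Finset.insert_inter_of_notMem hsZ]
  unfold Fam
  constructor
  · rintro ⟨hsC, h1, h2, h3, h4⟩
    refine ⟨?_, ?_, by rwa [hZ] at h3, ?_⟩
    · intro x hx
      have := h1 (Finset.mem_insert_of_mem hx)
      rw [Finset.mem_union] at this ⊢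
      rcases this with h | h
      · left
        rw [Finset.mem_erase]
        exact ⟨fun h' => hsC (h' ▸ hx), h⟩
      · right; exact h
    · intro x hx
      rw [Finset.mem_erase] at hx
      have := h2 hx.2
      rw [Finset.mem_insert] at this
      exact this.resolve_left hx.1
    · intro v
      have := h4 v
      rw [hcard hsC v] at this
      beta_reduce
      split_ifs at this ⊢ <;> omega
  · rintro ⟨h1, h2, h3, h4⟩
    have hsC : s ∉ C := by
      intro h
      have := h1 h
      rw [Finset.mem_union] at this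
      rcases this with h | h
      · exact absurd rfl (Finset.ne_of_mem_erase h)
      · exact hsZ h
    refine ⟨hsC, ?_, ?_, by rwa [hZ], ?_⟩
    · intro x hx
      rw [Finset.mem_insert] at hx
      rcases hx with rfl | hx
      · exact Finset.mem_union_left _ hsU
      · have := h1 hx
        rw [Finset.mem_union] at this ⊢
        rcases this with h | h
        · left; exact Finset.mem_of_mem_erase h
        · right; exact h
    · intro x hx
      by_cases hxs : x = s
      · rw [hxs]; exact Finset.mem_insert_self _ _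
      · exact Finset.mem_insert_of_mem (h2 (Finset.mem_erase.2 ⟨hxs, hx⟩))
    · intro v
      have := h4 v
      rw [hcard hsC v]
      beta_reduce at this
      split_ifs at this ⊢ <;> omega

/-- families without `s` -/
lemma fam_erase {U D C : Finset V} {r : V → ℕ} {s : V} (hsZ : s ∉ Z) :
    Fam G Z M (U.erase s) r D C ↔ Fam G Z M U r D C ∧ s ∉ C := by
  unfold Fam
  constructor
  · rintro ⟨h1, h2, h3, h4⟩
    refine ⟨⟨h1.trans (Finset.union_subset_union_left (Finset.erase_subset _ _)), h2, h3,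
      fun v => (h4 v).trans (Finset.card_le_card ?_)⟩, ?_⟩
    · exact Finset.inter_subset_inter_right
        (Finset.inter_subset_inter_left (Finset.erase_subset _ _))
    · intro h
      have := h1 h
      rw [Finset.mem_union] at this
      rcases this with h | h
      · exact absurd rfl (Finset.ne_of_mem_erase h)
      · exact hsZ h
  · rintro ⟨⟨h1, h2, h3, h4⟩, h5⟩
    refine ⟨?_, h2, h3, ?_⟩
    · intro x hx
      have := h1 hx
      rw [Finset.mem_union] at this ⊢
      rcases this with h | h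
      · left
        rw [Finset.mem_erase]
        exact ⟨fun h' => h5 (h' ▸ hx), h⟩
      · right; exact h
    · intro v
      have e : C ∩ U.erase s ∩ cn G v = C ∩ U ∩ cn G v := by
        ext x
        simp only [Finset.mem_inter, Finset.mem_erase]
        constructor
        · rintro ⟨⟨h1, h2, h3⟩, h4⟩; exact ⟨⟨h1, h3⟩, h4⟩
        · rintro ⟨⟨h1, h2⟩, h3⟩; exact ⟨⟨h1, fun h => h5 (h ▸ h1), h2⟩, h3⟩
      rw [e]; exact h4 v

lemma fam_insertD {U D C : Finset V} {r : V → ℕ} {s : V} :
    Fam G Z M U r (insert s D) C ↔ Fam G Z M U r D C ∧ s ∈ C := by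
  unfold Fam
  rw [Finset.insert_subset_iff]
  tauto

/-- families avoiding the closed neighbourhood of `s` -/
lemma fam_sdiff {U D C : Finset V} {r : V → ℕ} {s : V} (hUZ : Disjoint U Z) :
    Fam G Z M (U \ cn G s) r D C ↔ Fam G Z M U r D C ∧ C ∩ U ∩ cn G s = ∅ := by
  unfold Fam
  constructor
  · rintro ⟨h1, h2, h3, h4⟩
    refine ⟨⟨h1.trans (Finset.union_subset_union_left Finset.sdiff_subset), h2, h3,
      fun v => (h4 v).trans (Finset.card_le_card ?_)⟩, ?_⟩
    · exact Finset.inter_subset_inter_right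
        (Finset.inter_subset_inter_left Finset.sdiff_subset)
    · rw [Finset.eq_empty_iff_forall_notMem]
      intro x hx
      simp only [Finset.mem_inter] at hx
      have := h1 hx.1.1
      rw [Finset.mem_union, Finset.mem_sdiff] at this
      rcases this with h | h
      · exact h.2 hx.2
      · exact Finset.disjoint_left.1 hUZ hx.1.2 h
  · rintro ⟨⟨h1, h2, h3, h4⟩, h5⟩
    rw [Finset.eq_empty_iff_forall_notMem] at h5
    simp only [Finset.mem_inter, not_and] at h5
    refine ⟨?_, h2, h3, ?_⟩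
    · intro x hx
      have := h1 hx
      rw [Finset.mem_union] at this
      rw [Finset.mem_union, Finset.mem_sdiff]
      rcases this with h | h
      · left
        exact ⟨h, h5 x ⟨hx, h⟩⟩
      · right; exact h
    · intro v
      have e : C ∩ (U \ cn G s) ∩ cn G v = C ∩ U ∩ cn G v := by
        ext x
        simp only [Finset.mem_inter, Finset.mem_sdiff]
        constructor
        · rintro ⟨⟨h1, h2, h3⟩, h4⟩; exact ⟨⟨h1, h2⟩, h4⟩
        · rintro ⟨⟨h1, h2⟩, h3⟩; exact ⟨⟨h1, h2, h5 x ⟨h1, h2⟩⟩, h3⟩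
      rw [e]; exact h4 v

/-- families meeting `N[s]` exactly in `x` -/
lemma fam_single {U D C : Finset V} {r : V → ℕ} {s x : V} (hUZ : Disjoint U Z) (hx : x ∈ U)
    (hxs : x ∈ cn G s) :
    Fam G Z M (insert x (U \ cn G s)) r (insert x D) C ↔
      Fam G Z M U r D C ∧ C ∩ U ∩ cn G s = {x} := by
  have hsub : insert x (U \ cn G s) ⊆ U :=
    Finset.insert_subset hx Finset.sdiff_subset
  unfold Fam
  constructor
  · rintro ⟨h1, h2, h3, h4⟩
    have hxC : x ∈ C := h2 (Finset.mem_insert_self _ _)
    refine ⟨⟨h1.trans (Finset.union_subset_union_left hsub),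
      (Finset.subset_insert _ _).trans h2, h3,
      fun v => (h4 v).trans (Finset.card_le_card ?_)⟩, ?_⟩
    · exact Finset.inter_subset_inter_right (Finset.inter_subset_inter_left hsub)
    · ext y
      simp only [Finset.mem_inter, Finset.mem_singleton]
      constructor
      · rintro ⟨⟨hy1, hy2⟩, hy3⟩
        have := h1 hy1
        rw [Finset.mem_union, Finset.mem_insert, Finset.mem_sdiff] at this
        rcases this with (h | h) | h
        · exact h
        · exact absurd hy3 h.2
        · exact absurd h (Finset.disjoint_left.1 hUZ hy2)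
      · rintro rfl
        exact ⟨⟨hxC, hx⟩, hxs⟩
  · rintro ⟨⟨h1, h2, h3, h4⟩, h5⟩
    have h6 : ∀ y, y ∈ C → y ∈ U → y ∈ cn G s → y = x := by
      intro y hy1 hy2 hy3
      have : y ∈ C ∩ U ∩ cn G s := by
        simp only [Finset.mem_inter]; exact ⟨⟨hy1, hy2⟩, hy3⟩
      rw [h5] at this
      simpa using this
    have hxC : x ∈ C := by
      have : x ∈ C ∩ U ∩ cn G s := by rw [h5]; simp
      simp only [Finset.mem_inter] at this
      exact this.1.1
    refine ⟨?_, Finset.insert_subset hxC h2, h3, ?_⟩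
    · intro y hy
      have := h1 hy
      rw [Finset.mem_union] at this
      rw [Finset.mem_union, Finset.mem_insert, Finset.mem_sdiff]
      rcases this with h | h
      · left
        by_cases hys : y ∈ cn G s
        · left; exact h6 y hy h hys
        · right; exact ⟨h, hys⟩
      · right; exact h
    · intro v
      have e : C ∩ insert x (U \ cn G s) ∩ cn G v = C ∩ U ∩ cn G v := by
        ext y
        simp only [Finset.mem_inter, Finset.mem_insert, Finset.mem_sdiff]
        constructor
        · rintro ⟨⟨h1, h2 | h2⟩, h3⟩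
          · subst h2; exact ⟨⟨h1, hx⟩, h3⟩
          · exact ⟨⟨h1, h2.1⟩, h3⟩
        · rintro ⟨⟨h1, h2⟩, h3⟩
          refine ⟨⟨h1, ?_⟩, h3⟩
          by_cases hys : y ∈ cn G s
          · left; exact h6 y h1 h2 hys
          · right; exact ⟨h2, hys⟩
      rw [e]; exact h4 v

/-- the number of cliques of the list containing `v` -/
noncomputable def mult (Q : Multiset (Finset V)) (v : V) : ℕ := Q.countP (fun p => v ∈ p)

omit [Fintype V] in
lemma mult_cons (p : Finset V) (Q : Multiset (Finset V)) (v : V) :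
    mult (p ::ₘ Q) v = mult Q v + if v ∈ p then 1 else 0 := by
  unfold mult
  rw [Multiset.countP_cons]

omit [Fintype V] in
lemma exists_of_mult_pos {Q : Multiset (Finset V)} {v : V} (h : 0 < mult Q v) :
    ∃ p Q', Q = p ::ₘ Q' ∧ v ∈ p := by
  unfold mult at h
  rw [Multiset.countP_pos] at h
  obtain ⟨p, hp, hv⟩ := h
  obtain ⟨Q', rfl⟩ := Multiset.exists_cons_of_mem hp
  exact ⟨p, Q', rfl, hv⟩

/-- the data of the induction -/
structure Dat (G : SimpleGraph V) (Z V' U A : Finset V) (r : V → ℕ)
    (Q : Multiset (Finset V)) : Prop where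
  UV : U ⊆ V'
  VZ : Disjoint V' Z
  supp : ∀ v, r v ≠ 0 → v ∈ V'
  le2 : ∀ v, r v ≤ 2
  AU : A ⊆ U
  ind : ∀ a ∈ A, ∀ b ∈ A, ¬ G.Adj a b
  clq : ∀ p ∈ Q, ∀ u ∈ p, ∀ v ∈ p, u ∈ V' → v ∈ V' → u ≠ v → G.Adj u v
  cov : ∀ v ∈ V', (r v ≠ 0 ∨ v ∈ A) → 2 ≤ r v + mult Q v

/-- simplicial vertex of the induced subgraph on `V'` -/
def Simp (G : SimpleGraph V) (V' : Finset V) (s : V) : Prop :=
  s ∈ V' ∧ ∀ u ∈ V', ∀ v ∈ V', G.Adj s u → G.Adj s v → u ≠ v → G.Adj u v

lemma Simp.adj {V' : Finset V} {s u v : V} (hs : Simp G V' s) (hu : u ∈ V') (hv : v ∈ V')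
    (hus : u ∈ cn G s) (hvs : v ∈ cn G s) (huv : u ≠ v) : G.Adj u v := by
  rw [mem_cn] at hus hvs
  rcases hus with rfl | hus
  · rcases hvs with rfl | hvs
    · exact absurd rfl huv
    · exact hvs
  · rcases hvs with rfl | hvs
    · exact hus.symm
    · exact hs.2 u hu v hv hus hvs huv

lemma Simp.mem {V' : Finset V} {s u v : V} (hs : Simp G V' s) (hu : u ∈ V') (hv : v ∈ V')
    (hus : u ∈ cn G s) (hvs : v ∈ cn G s) : u ∈ cn G v := by
  rw [mem_cn]
  by_cases h : u = v
  · exact Or.inl h
  · exact Or.inr (hs.adj hu hv hus hvs h).symm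

/-- an independent set loses at most one element by removing the closed neighbourhood of a
simplicial vertex -/
lemma card_sdiff {V' A : Finset V} {s : V} (hs : Simp G V' s) (hA : A ⊆ V')
    (hind : ∀ a ∈ A, ∀ b ∈ A, ¬ G.Adj a b) : A.card ≤ (A \ cn G s).card + 1 := by
  have h1 : (A ∩ cn G s).card ≤ 1 := by
    rw [Finset.card_le_one]
    intro a ha b hb
    rw [Finset.mem_inter] at ha hb
    by_contra hab
    exact hind a ha.1 b hb.1 (hs.adj (hA ha.1) (hA hb.1) ha.2 hb.2 hab)
  have h2 := Finset.card_sdiff_add_card_inter A (cn G s)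
  omega

end Pool.Agent.H5Reg
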