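import Mathlib
import Pool.Agent.H5Reg.Main
import Pool.Agent.H5Reg.Defs

set_option autoImplicit false

namespace Pool.Agent.H5Reg

open Classical SimpleGraph

lemma edge_mem_cycle {n : ℕ} {i j : Fin (n + 3)} (h : (cycleGraph (n + 3)).Adj i j) :
    s(i, j) ∈ (cycleGraph.cycle n).edges := by
  have key : ∀ i j : Fin (n + 3), (i - j).val = 1 → s(i, j) ∈ (cycleGraph.cycle n).edges := by
    rintro ⟨i, hi⟩ ⟨j, hj⟩ h
    have h2 : (n + 3 - j + i) % (n + 3) = 1 := by
      rw [← h, Fin.sub_def]
    have h3 : i = j + 1 ∨ (i = 0 ∧ j = n + 2) := by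
      by_cases hij : j ≤ i
      · have : n + 3 - j + i = (n + 3) + (i - j) := by omega
        rw [this, Nat.add_mod_left, Nat.mod_eq_of_lt (by omega)] at h2
        omega
      · rw [Nat.mod_eq_of_lt (by omega)] at h2
        omega
    rw [Walk.mk_mem_edges_iff_exists]
    rcases h3 with h3 | ⟨h3, h4⟩
    · refine ⟨n + 3 - i, by simp; omega, ?_⟩
      rw [cycleGraph.getVert_cycle (by omega), cycleGraph.getVert_cycle (by omega)]
      have e1 : (n + 3 - (n + 3 - i)) % (n + 3) = i := by
        rw [Nat.mod_eq_of_lt (by omega)]; omega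
      have e2 : (n + 3 - (n + 3 - i + 1)) % (n + 3) = j := by
        rw [Nat.mod_eq_of_lt (by omega)]; omega
      congr 1
      · exact Fin.ext e1
      · exact Fin.ext e2
    · refine ⟨0, by simp, ?_⟩
      rw [cycleGraph.getVert_cycle (by omega), cycleGraph.getVert_cycle (by omega)]
      have e1 : (n + 3 - 0) % (n + 3) = i := by
        rw [h3]; simp
      have e2 : (n + 3 - (0 + 1)) % (n + 3) = j := by
        rw [Nat.mod_eq_of_lt (by omega)]; omega
      congr 1
      · exact Fin.ext e1
      · exact Fin.ext e2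
  rw [cycleGraph_adj'] at h
  rcases h with h | h
  · exact key i j h
  · rw [Sym2.eq_swap]
    exact key j i h

/-- a chordal graph has no hole -/
lemma no_hole {V : Type*} {G : SimpleGraph V} (hch : Chordal G) {n : ℕ} (e : Fin (n + 4) → V)
    (he : Function.Injective e)
    (hadj : ∀ i j, G.Adj (e i) (e j) ↔ (cycleGraph (n + 4)).Adj i j) : False := by
  let φ : cycleGraph (n + 1 + 3) →g G := ⟨e, fun {i j} h => (hadj i j).2 h⟩
  have hφ : Function.Injective φ := he
  obtain ⟨x, hx, y, hy, h1, h2⟩ := hch (φ 0) ((cycleGraph.cycle (n + 1)).map φ)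
    ((Walk.isCycle_map_iff_of_injective hφ).mpr cycleGraph.isCycle_cycle) (by simp)
  rw [Walk.support_map, List.mem_map] at hx hy
  obtain ⟨i, hi, rfl⟩ := hx
  obtain ⟨j, hj, rfl⟩ := hy
  apply h2
  rw [Walk.edges_map, List.mem_map]
  exact ⟨s(i, j), edge_mem_cycle ((hadj i j).1 h1), rfl⟩

/-- the version with functions on natural numbers: an induced path `f 0, ..., f k` with `k ≥ 2`
and one vertex `b` adjacent exactly to its two ends -/
lemma no_hole' {V : Type*} {G : SimpleGraph V} (hch : Chordal G) {k : ℕ} (hk : 2 ≤ k)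
    (f : ℕ → V) (b : V) (hne : ∀ i j, i < j → j ≤ k → f i ≠ f j)
    (hadj : ∀ i j, i < j → j ≤ k → (G.Adj (f i) (f j) ↔ j = i + 1))
    (hb : ∀ i, i ≤ k → (G.Adj b (f i) ↔ i = 0 ∨ i = k)) (hbn : ∀ i, i ≤ k → f i ≠ b) : False := by
  obtain ⟨n, rfl⟩ : ∃ n, k = n + 2 := ⟨k - 2, by omega⟩
  have hsub : ∀ i j : ℕ, (hi : i < n + 4) → (hj : j < n + 4) → i < j →
      ((cycleGraph (n + 4)).Adj ⟨i, hi⟩ ⟨j, hj⟩ ↔ j = i + 1 ∨ (i = 0 ∧ j = n + 3)) := by
    intro i j hi hj hij
    rw [cycleGraph_adj', Fin.sub_def, Fin.sub_def]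
    simp only
    have e1 : (n + 4 - j + i) % (n + 4) = n + 4 - j + i := Nat.mod_eq_of_lt (by omega)
    have e2 : (n + 4 - i + j) % (n + 4) = j - i := by
      have : n + 4 - i + j = (n + 4) + (j - i) := by omega
      rw [this, Nat.add_mod_left, Nat.mod_eq_of_lt (by omega)]
    rw [e1, e2]
    omega
  let e : Fin (n + 4) → V := fun i => if i.val ≤ n + 2 then f i.val else b
  have hlt : ∀ i j : Fin (n + 4), i < j → (e i ≠ e j ∧
      (G.Adj (e i) (e j) ↔ (cycleGraph (n + 4)).Adj i j)) := by
    rintro ⟨i, hi⟩ ⟨j, hj⟩ hij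
    rw [Fin.mk_lt_mk] at hij
    rw [hsub i j hi hj hij]
    simp only [e]
    rw [if_pos (by omega : i ≤ n + 2)]
    by_cases hj' : j ≤ n + 2
    · rw [if_pos hj']
      refine ⟨hne i j hij hj', ?_⟩
      rw [hadj i j hij hj']
      omega
    · rw [if_neg hj']
      refine ⟨hbn i (by omega), ?_⟩
      rw [G.adj_comm, hb i (by omega)]
      omega
  refine no_hole (n := n) hch e ?_ ?_
  · intro i j hij
    rcases lt_trichotomy i j with h | h | h
    · exact absurd hij (hlt i j h).1
    · exact h
    · exact absurd hij.symm (hlt j i h).1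
  · intro i j
    rcases lt_trichotomy i j with h | h | h
    · exact (hlt i j h).2
    · subst h
      simp
    · rw [G.adj_comm, (cycleGraph (n + 4)).adj_comm]
      exact (hlt j i h).2

variable {V : Type*} [Fintype V] [DecidableEq V] {G : SimpleGraph V}

/-- the edges of `G` inside `T` -/
def within (G : SimpleGraph V) (T : Finset V) : SimpleGraph V where
  Adj u v := G.Adj u v ∧ u ∈ T ∧ v ∈ T
  symm := ⟨fun _ _ h => ⟨h.1.symm, h.2.2, h.2.1⟩⟩
  loopless := ⟨fun _ h => G.loopless.1 _ h.1⟩

omit [Fintype V] [DecidableEq V] in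
lemma within_mono {T T' : Finset V} (h : T ⊆ T') : within G T ≤ within G T' :=
  fun _ _ hab => ⟨hab.1, h hab.2.1, h hab.2.2⟩

/-- connectedness of a set of vertices -/
def CSet (G : SimpleGraph V) (A : Finset V) : Prop :=
  ∀ u ∈ A, ∀ v ∈ A, (within G A).Reachable u v

omit [Fintype V] in
lemma cset_insert {A : Finset V} {x a : V} (hA : CSet G A) (ha : a ∈ A) (hxa : G.Adj x a) :
    CSet G (insert x A) := by
  have h1 : ∀ u ∈ A, ∀ v ∈ A, (within G (insert x A)).Reachable u v := fun u hu v hv =>
    (hA u hu v hv).mono (within_mono (Finset.subset_insert _ _))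
  have h2 : (within G (insert x A)).Reachable x a :=
    SimpleGraph.Adj.reachable ⟨hxa, Finset.mem_insert_self _ _, Finset.mem_insert_of_mem ha⟩
  intro u hu v hv
  rw [Finset.mem_insert] at hu hv
  rcases hu with rfl | hu
  · rcases hv with rfl | hv
    · exact Reachable.refl _
    · exact h2.trans (h1 a ha v hv)
  · rcases hv with rfl | hv
    · exact (h1 u hu a ha).trans h2.symm
    · exact h1 u hu v hv

omit [Fintype V] [DecidableEq V] in
lemma mem_of_within_walk {T : Finset V} {x y : V} (hx : x ∈ T) (p : (within G T).Walk x y)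
    {i : ℕ} : p.getVert i ∈ T := by
  induction p generalizing i with
  | nil => simpa using hx
  | cons h p ih =>
    rcases i with _ | i
    · simpa using hx
    · rw [Walk.getVert_cons_succ]
      exact ih h.2.2

omit [Fintype V] in
/-- the separators are cliques -/
lemma sep_clique (hch : Chordal G) {A : Finset V} (hA : CSet G A) {x y b a a' : V}
    (ha : a ∈ A) (ha' : a' ∈ A) (hxa : G.Adj x a) (hya : G.Adj y a')
    (hxy : x ≠ y) (hbA : b ∉ A) (hb : ∀ c ∈ A, ¬ G.Adj b c) (hbx : G.Adj b x) (hby : G.Adj b y) :
    G.Adj x y := by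
  by_contra hnadj
  set T : Finset V := insert x (insert y A) with hT
  have hAT : A ⊆ T := (Finset.subset_insert _ _).trans (Finset.subset_insert _ _)
  have hxT : x ∈ T := Finset.mem_insert_self _ _
  have hyT : y ∈ T := Finset.mem_insert_of_mem (Finset.mem_insert_self _ _)
  have hreach : (within G T).Reachable x y := by
    have h1 : (within G T).Reachable x a := SimpleGraph.Adj.reachable ⟨hxa, hxT, hAT ha⟩
    have h2 : (within G T).Reachable a a' := (hA a ha a' ha').mono (within_mono hAT)
    have h3 : (within G T).Reachable a' y := SimpleGraph.Adj.reachable ⟨hya.symm, hAT ha', hyT⟩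
    exact (h1.trans h2).trans h3
  obtain ⟨p, hp⟩ := hreach.exists_walk_length_eq_dist
  have hpath : p.IsPath := Walk.isPath_of_length_eq_dist p hp
  have hmem : ∀ i, p.getVert i ∈ T := fun i => mem_of_within_walk hxT p
  have hinj : ∀ i j, i ≤ p.length → j ≤ p.length → p.getVert i = p.getVert j → i = j :=
    fun i j hi hj h => hpath.getVert_injOn hi hj h
  have hshort : ∀ i j, i < j → j ≤ p.length → G.Adj (p.getVert i) (p.getVert j) → j = i + 1 := by
    intro i j hij hj h
    have hw : (within G T).Adj (p.getVert i) (p.getVert j) := ⟨h, hmem i, hmem j⟩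
    have h1 := dist_le ((p.take i).append (Walk.cons hw (p.drop j)))
    rw [Walk.length_append, Walk.length_cons, Walk.take_length, Walk.drop_length, ← hp] at h1
    omega
  have hlen : 2 ≤ p.length := by
    by_contra hcon
    have h01 : p.length = 0 ∨ p.length = 1 := by omega
    rcases h01 with h | h
    · exact hxy (Walk.eq_of_length_eq_zero h)
    · exact hnadj (Walk.adj_of_length_eq_one h).1
  have hint : ∀ i, 0 < i → i < p.length → p.getVert i ∈ A := by
    intro i h0 hi
    have h1 : p.getVert i = x ∨ p.getVert i = y ∨ p.getVert i ∈ A := by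
      have := hmem i
      simpa only [hT, Finset.mem_insert] using this
    rcases h1 with h1 | h1 | h1
    · have := hinj i 0 hi.le (Nat.zero_le _) (by rw [h1, Walk.getVert_zero])
      omega
    · have := hinj i p.length hi.le le_rfl (by rw [h1, Walk.getVert_length])
      omega
    · exact h1
  refine no_hole' hch hlen p.getVert b ?_ ?_ ?_ ?_
  · intro i j hij hj h
    have := hinj i j (by omega) hj h
    omega
  · intro i j hij hj
    constructor
    · exact hshort i j hij hj
    · rintro rfl
      exact (p.adj_getVert_succ (by omega)).1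
  · intro i hi
    constructor
    · intro h
      by_contra hcon
      push Not at hcon
      exact hb _ (hint i (by omega) (by omega)) h
    · rintro (rfl | rfl)
      · rwa [Walk.getVert_zero]
      · rwa [Walk.getVert_length]
  · intro i hi h
    by_cases h0 : i = 0
    · subst h0
      rw [Walk.getVert_zero] at h
      exact hbx.ne h.symm
    · by_cases h1 : i = p.length
      · subst h1
        rw [Walk.getVert_length] at h
        exact hby.ne h.symm
      · exact hbA (h ▸ hint i (by omega) (by omega))

/-- every nonempty set of vertices of a chordal graph has a simplicial vertex -/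
theorem exists_simp (hch : Chordal G) : ∀ (n : ℕ) (S : Finset V), S.card ≤ n → S.Nonempty →
    ∃ s, Simp G S s := by
  intro n
  induction n with
  | zero =>
    intro S hS hne
    exact absurd (Finset.card_eq_zero.1 (Nat.le_zero.1 hS)) hne.ne_empty
  | succ n ih =>
    intro S hS hne
    -- the sets `A`
    let F : Finset (Finset V) := S.powerset.filter (fun A => CSet G A ∧ A.Nonempty ∧
      ∃ b ∈ S, b ∉ A ∧ ∀ c ∈ A, ¬ G.Adj b c)
    by_cases hF : F.Nonempty
    · obtain ⟨A, hAF, hmax⟩ := Finset.exists_max_image F Finset.card hF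
      simp only [F, Finset.mem_filter, Finset.mem_powerset] at hAF
      obtain ⟨hAS, hA, hAne, b0, hb0S, hb0A, hb0⟩ := hAF
      set B : Finset V := S.filter (fun b => b ∉ A ∧ ∀ c ∈ A, ¬ G.Adj b c) with hB
      have hBne : B.Nonempty := ⟨b0, by rw [hB, Finset.mem_filter]; exact ⟨hb0S, hb0A, hb0⟩⟩
      have hBS : B ⊆ S := Finset.filter_subset _ _
      have hBcard : B.card ≤ n := by
        have : B ⊂ S := by
          refine ⟨hBS, fun h => ?_⟩
          obtain ⟨a, ha⟩ := hAne
          have := h (hAS ha)
          rw [hB, Finset.mem_filter] at this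
          exact this.2.1 ha
        have := Finset.card_lt_card this
        omega
      -- neighbours of `A` are adjacent to all of `B`
      have hNB : ∀ x ∈ S, x ∉ A → (∃ a ∈ A, G.Adj x a) → ∀ b ∈ B, G.Adj b x := by
        rintro x hxS hxA ⟨a, ha, hxa⟩ b hb
        by_contra hcon
        rw [hB, Finset.mem_filter] at hb
        have hmem : insert x A ∈ F := by
          simp only [F, Finset.mem_filter, Finset.mem_powerset]
          refine ⟨Finset.insert_subset hxS hAS, cset_insert hA ha hxa,
            Finset.insert_nonempty _ _, b, hb.1, ?_, ?_⟩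
          · rw [Finset.mem_insert]
            rintro (rfl | h)
            · exact hb.2.2 a ha hxa
            · exact hb.2.1 h
          · intro c hc
            rw [Finset.mem_insert] at hc
            rcases hc with rfl | hc
            · exact hcon
            · exact hb.2.2 c hc
        have := hmax _ hmem
        rw [Finset.card_insert_of_notMem hxA] at this
        omega
      obtain ⟨s, hs⟩ := ih B hBcard hBne
      have hsB := hs.1
      rw [hB, Finset.mem_filter] at hsB
      refine ⟨s, hBS hs.1, ?_⟩
      -- a neighbour of `s` in `S` is in `B` or a neighbour of `A`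
      have hcase : ∀ u ∈ S, G.Adj s u → u ∈ B ∨ (u ∉ A ∧ ∃ a ∈ A, G.Adj u a) := by
        intro u hu hsu
        have huA : u ∉ A := fun h => hsB.2.2 u h hsu
        by_cases h : ∃ a ∈ A, G.Adj u a
        · exact Or.inr ⟨huA, h⟩
        · left
          rw [hB, Finset.mem_filter]
          push Not at h
          exact ⟨hu, huA, h⟩
      intro u hu v hv hsu hsv huv
      rcases hcase u hu hsu with h1 | ⟨h1, h1'⟩
      · rcases hcase v hv hsv with h2 | ⟨h2, h2'⟩
        · exact hs.2 u h1 v h2 hsu hsv huv
        · exact hNB v hv h2 h2' u h1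
      · rcases hcase v hv hsv with h2 | ⟨h2, h2'⟩
        · exact (hNB u hu h1 h1' v h2).symm
        · obtain ⟨a, ha, hua⟩ := h1'
          obtain ⟨a', ha', hva⟩ := h2'
          exact sep_clique hch hA ha ha' hua hva huv hsB.2.1 hsB.2.2 hsu hsv
    · -- `S` is a clique
      rw [Finset.not_nonempty_iff_eq_empty, Finset.eq_empty_iff_forall_notMem] at hF
      obtain ⟨s, hs⟩ := hne
      refine ⟨s, hs, ?_⟩
      intro u hu v hv _ _ huv
      by_contra hcon
      apply hF {u}
      simp only [F, Finset.mem_filter, Finset.mem_powerset, Finset.singleton_subset_iff]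
      refine ⟨hu, ?_, Finset.singleton_nonempty _, v, hv, ?_, ?_⟩
      · intro a ha b hb
        rw [Finset.mem_singleton] at ha hb
        rw [ha, hb]
      · rw [Finset.mem_singleton]; exact Ne.symm huv
      · intro c hc
        rw [Finset.mem_singleton] at hc
        rw [hc]
        exact fun h => hcon h.symm

end Pool.Agent.H5Reg
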