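import Mathlib
import Pool.Agent.H5Reg.Main

set_option autoImplicit false

namespace Pool.Agent.H5Reg

open Classical

variable {V : Type*} [Fintype V] [DecidableEq V] {K : Type*} [Field K]
variable {G : SimpleGraph V} {Z : Finset V} {M : Finset V → Prop} {q : ℕ}

omit [Fintype V] in
lemma measure_erase {V' U U' : Finset V} {r r' : V → ℕ} {s : V} {n : ℕ} (hs : s ∈ V')
    (hr : ∀ v, r' v ≤ r v) (hU : U' ⊆ U)
    (hn : V'.card + ∑ v ∈ V', r v + U.card ≤ n + 1) :
    (V'.erase s).card + ∑ v ∈ V'.erase s, r' v + U'.card ≤ n := by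
  have h1 : (V'.erase s).card + 1 = V'.card := Finset.card_erase_add_one hs
  have h2 : ∑ v ∈ V'.erase s, r' v ≤ ∑ v ∈ V', r v :=
    (Finset.sum_le_sum fun v _ => hr v).trans
      (Finset.sum_le_sum_of_subset (Finset.erase_subset _ _))
  have h3 : U'.card ≤ U.card := Finset.card_le_card hU
  omega

omit [Fintype V] [DecidableEq V] in
lemma measure_drop {V' U U' : Finset V} {r r' : V → ℕ} {s : V} {n : ℕ} (hs : s ∈ V')
    (hr : ∀ v, r' v ≤ r v) (hrs : r' s < r s) (hU : U' ⊆ U)
    (hn : V'.card + ∑ v ∈ V', r v + U.card ≤ n + 1) :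
    V'.card + ∑ v ∈ V', r' v + U'.card ≤ n := by
  have h2 : ∑ v ∈ V', r' v < ∑ v ∈ V', r v :=
    Finset.sum_lt_sum (fun v _ => hr v) ⟨s, hs, hrs⟩
  have h3 : U'.card ≤ U.card := Finset.card_le_card hU
  omega

omit [Fintype V] in
lemma dat_erase {V' U U' A A' : Finset V} {r r' : V → ℕ} {Q : Multiset (Finset V)} {s : V}
    (d : Dat G Z V' U A r Q) (hU : U' ⊆ U) (hsU : s ∉ U') (hA : A' ⊆ A) (hAU : A' ⊆ U')
    (hr : ∀ v, r' v = r v ∨ (r' v = 0 ∧ v ∉ A')) (hrs : r' s = 0) :
    Dat G Z (V'.erase s) U' A' r' Q where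
  UV := fun x hx => Finset.mem_erase.2 ⟨fun h => hsU (h ▸ hx), d.UV (hU hx)⟩
  VZ := Finset.disjoint_of_subset_left (Finset.erase_subset _ _) d.VZ
  supp := fun v hv => by
    refine Finset.mem_erase.2 ⟨fun h => hv (h ▸ hrs), ?_⟩
    rcases hr v with h | h
    · exact d.supp v (h ▸ hv)
    · exact absurd h.1 hv
  le2 := fun v => by
    rcases hr v with h | h
    · rw [h]; exact d.le2 v
    · rw [h.1]; omega
  AU := hAU
  ind := fun a ha b hb => d.ind a (hA ha) b (hA hb)
  clq := fun p hp u hu v hv hu' hv' huv =>
    d.clq p hp u hu v hv (Finset.mem_of_mem_erase hu') (Finset.mem_of_mem_erase hv') huv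
  cov := fun v hv h => by
    have hvV := Finset.mem_of_mem_erase hv
    rcases hr v with h1 | h1
    · rw [h1] at h ⊢
      exact d.cov v hvV (h.imp id fun h => hA h)
    · rcases h with h | h
      · exact absurd h1.1 h
      · exact absurd h h1.2

lemma base_case {U A : Finset V} {r : V → ℕ} {Q : Multiset (Finset V)} {D : Finset V}
    {σ : V → Finset V → K} {c : ℕ}
    (hM : ∀ (D : Finset V) (σ : V → Finset V → K) (c : ℕ), c < q →
      SignOn (fun C => C ⊆ Z) σ → Van (fun C => C ⊆ Z ∧ D ⊆ C ∧ M C) σ c)
    (hU : U = ∅) (hr : ∀ v, r v = 0) (hA : A ⊆ U)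
    (hσ : SignOn (fun C => C ⊆ U ∪ Z) σ) (hc : c + Q.card ≤ A.card + q)
    (hex : c + Q.card = A.card + q → (∃ v, r v ≠ 0) ∨ U.Nonempty ∨ Q ≠ 0) :
    Van (Fam G Z M U r D) σ c := by
  subst hU
  have hA' : A = ∅ := Finset.subset_empty.1 hA
  subst hA'
  have hcq : c < q := by
    by_contra hcon
    push Not at hcon
    have hQ : Q.card = 0 := by simp at hc; omega
    have : c + Q.card = (∅ : Finset V).card + q := by
      rw [Finset.card_empty] at hc ⊢
      omega
    rcases hex this with ⟨v, hv⟩ | h | h
    · exact hv (hr v)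
    · exact absurd h (by simp)
    · exact h (Multiset.card_eq_zero.1 hQ)
  have e : Fam G Z M ∅ r D = fun C => C ⊆ Z ∧ D ⊆ C ∧ M C := by
    funext C
    unfold Fam
    rw [Finset.empty_union]
    apply propext
    constructor
    · rintro ⟨h1, h2, h3, _⟩
      rw [Finset.inter_eq_left.2 h1] at h3
      exact ⟨h1, h2, h3⟩
    · rintro ⟨h1, h2, h3⟩
      refine ⟨h1, h2, by rwa [Finset.inter_eq_left.2 h1], fun v => ?_⟩
      rw [hr v]; exact Nat.zero_le _
  rw [e]
  rw [Finset.empty_union] at hσ
  exact hM D σ c hcq hσ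

/-- the statement proved by induction -/
def Claim (G : SimpleGraph V) (Z : Finset V) (M : Finset V → Prop) (q : ℕ) (K : Type*) [Field K]
    (n : ℕ) : Prop :=
  ∀ (V' U A : Finset V) (r : V → ℕ) (Q : Multiset (Finset V)) (D : Finset V)
      (σ : V → Finset V → K) (c : ℕ), V'.card + ∑ v ∈ V', r v + U.card ≤ n →
      Dat G Z V' U A r Q → SignOn (fun C => C ⊆ U ∪ Z) σ → c + Q.card ≤ A.card + q →
      (c + Q.card = A.card + q → (∃ v, r v ≠ 0) ∨ U.Nonempty ∨ Q ≠ 0) →
      Van (Fam G Z M U r D) σ c

omit [Fintype V] in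
lemma card_erase_ge (A : Finset V) (x : V) : A.card ≤ (A.erase x).card + 1 := by
  have := Finset.card_erase_add_one (s := A) (a := x)
  by_cases h : x ∈ A
  · have := this h; omega
  · rw [Finset.erase_eq_of_notMem h]; omega

omit [Fintype V] in
lemma signOn_erase {U : Finset V} {σ : V → Finset V → K} {s : V} (hsU : s ∈ U) (hsZ : s ∉ Z)
    (hσ : SignOn (fun C => C ⊆ U ∪ Z) σ) :
    SignOn (fun C => C ⊆ U.erase s ∪ Z) (fun t C => σ t (insert s C)) := by
  apply (signOn_shift hσ s).mono
  intro C hC
  refine ⟨?_, ?_⟩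
  · intro h
    have := hC h
    rw [Finset.mem_union] at this
    rcases this with h | h
    · exact absurd rfl (Finset.ne_of_mem_erase h)
    · exact hsZ h
  · exact Finset.insert_subset (Finset.mem_union_left _ hsU)
      (hC.trans (Finset.union_subset_union_left (Finset.erase_subset _ _)))

omit [Fintype V] in
lemma signOn_sub {U U' : Finset V} {σ : V → Finset V → K} (hU : U' ⊆ U)
    (hσ : SignOn (fun C => C ⊆ U ∪ Z) σ) : SignOn (fun C => C ⊆ U' ∪ Z) σ :=
  hσ.mono (fun _ hC => hC.trans (Finset.union_subset_union_left hU))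

lemma signOn_fam {U : Finset V} {r : V → ℕ} {D : Finset V} {σ : V → Finset V → K}
    (hσ : SignOn (fun C => C ⊆ U ∪ Z) σ) : SignOn (Fam G Z M U r D) σ :=
  hσ.mono (fun _ hC => hC.1)

/-- no requirement at all -/
lemma case_none {n : ℕ}
    (hM : ∀ (D : Finset V) (σ : V → Finset V → K) (c : ℕ), c < q →
      SignOn (fun C => C ⊆ Z) σ → Van (fun C => C ⊆ Z ∧ D ⊆ C ∧ M C) σ c)
    (ih : Claim G Z M q K n) {V' U A : Finset V} {r : V → ℕ} {Q : Multiset (Finset V)}
    {D : Finset V} {σ : V → Finset V → K} {c : ℕ}
    (hn : V'.card + ∑ v ∈ V', r v + U.card ≤ n + 1)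
    (d : Dat G Z V' U A r Q) (hσ : SignOn (fun C => C ⊆ U ∪ Z) σ) (hc : c + Q.card ≤ A.card + q)
    (hex : c + Q.card = A.card + q → (∃ v, r v ≠ 0) ∨ U.Nonempty ∨ Q ≠ 0)
    (hr : ∀ v, r v = 0) : Van (Fam G Z M U r D) σ c := by
  have hUZ : Disjoint U Z := Finset.disjoint_of_subset_left d.UV d.VZ
  by_cases hU : U = ∅
  · exact base_case hM hU hr d.AU hσ hc hex
  · obtain ⟨x, hx⟩ := Finset.nonempty_iff_ne_empty.2 hU
    have hxZ : x ∉ Z := Finset.disjoint_left.1 hUZ hx
    by_cases hxD : x ∈ D
    · -- forced element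
      rcases c with _ | c
      · apply van_of_not
        intro C hC hF
        rw [Finset.card_eq_zero.1 hC] at hF
        exact absurd (hF.2.1 hxD) (by simp)
      · apply van_shift x (fun C hC => hC.2.1 hxD)
        have e : (fun C => x ∉ C ∧ Fam G Z M U r D (insert x C)) =
            Fam G Z M (U.erase x) (fun v => if x ∈ cn G v then r v - 1 else r v)
              (D.erase x) := funext fun C => propext (fam_insert hx hxZ)
 
        have hσ' := signOn_erase hx hxZ hσ
        rw [e]
        have hr' : ∀ v, (fun v => if x ∈ cn G v then r v - 1 else r v) v = 0 := by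
          intro v
          simp [hr v]
        have hA := card_erase_ge A x
        refine ih (V'.erase x) (U.erase x) (A.erase x) _ Q _ _ c
          (measure_erase (d.UV hx) (fun v => (hr' v).le.trans (Nat.zero_le _))
            (Finset.erase_subset _ _) hn)
          (dat_erase d (Finset.erase_subset _ _) (Finset.notMem_erase _ _)
            (Finset.erase_subset _ _) (Finset.erase_subset_erase _ d.AU)
            (fun v => Or.inl ((hr' v).trans (hr v).symm)) (hr' x)) hσ' (by omega) ?_
        intro heq
        by_cases hQ : Q = 0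
        · exfalso
          have hA0 : A = ∅ := by
            rw [Finset.eq_empty_iff_forall_notMem]
            intro a ha
            have := d.cov a (d.UV (d.AU ha)) (Or.inr ha)
            rw [hr a, hQ] at this
            simp [mult] at this
          subst hA0
          subst hQ
          simp at heq hc
          omega
        · exact Or.inr (Or.inr hQ)
    · -- cone
      apply van_cone (signOn_fam hσ) x
      · intro C hC
        refine ⟨Finset.insert_subset (Finset.mem_union_left _ hx) hC.1,
          hC.2.1.trans (Finset.subset_insert _ _), ?_, fun v => by rw [hr v]; exact Nat.zero_le _⟩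
        rw [Finset.insert_inter_of_notMem hxZ]; exact hC.2.2.1
      · intro C hC
        refine ⟨(Finset.erase_subset _ _).trans hC.1, ?_, ?_,
          fun v => by rw [hr v]; exact Nat.zero_le _⟩
        · intro y hy
          exact Finset.mem_erase.2 ⟨fun h => hxD (h ▸ hy), hC.2.1 hy⟩
        · have : C.erase x ∩ Z = C ∩ Z := by
            ext y
            simp only [Finset.mem_inter, Finset.mem_erase]
            constructor
            · rintro ⟨⟨_, h1⟩, h2⟩; exact ⟨h1, h2⟩
            · rintro ⟨h1, h2⟩; exact ⟨⟨fun h => hxZ (h ▸ h2), h1⟩, h2⟩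
          rw [this]; exact hC.2.2.1

/-- the case `r s = 0`, `s ∈ U`, `s ∉ A` -/
lemma case_zero_aux {n : ℕ} (hMup : ∀ A B, M A → A ⊆ B → M B)
    (ih : Claim G Z M q K n) {V' U A : Finset V} {r : V → ℕ} {Q : Multiset (Finset V)} {s : V}
    (hn : V'.card + ∑ v ∈ V', r v + U.card ≤ n + 1)
    (d : Dat G Z V' U A r Q)
    (hr : ∃ v, r v ≠ 0) (hs : Simp G V' s) (hrs : r s = 0) (hsU : s ∈ U) (hsA : s ∉ A) :
    ∀ {D : Finset V} {σ : V → Finset V → K} {c : ℕ},
    SignOn (fun C => C ⊆ U ∪ Z) σ → c + Q.card ≤ A.card + q →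
     Van (Fam G Z M U r D) σ c := by
  have hsZ : s ∉ Z := Finset.disjoint_left.1 d.VZ hs.1
  -- first: s ∈ D
  have key : ∀ {D : Finset V} {σ : V → Finset V → K} {c : ℕ}, s ∈ D →
      SignOn (fun C => C ⊆ U ∪ Z) σ → c + Q.card ≤ A.card + q → Van (Fam G Z M U r D) σ c := by
    intro D σ c hsD hσ hc
    rcases c with _ | c
    · apply van_of_not
      intro C hC hF
      rw [Finset.card_eq_zero.1 hC] at hF
      exact absurd (hF.2.1 hsD) (by simp)
    · apply van_shift s (fun C hC => hC.2.1 hsD)
      have e : (fun C => s ∉ C ∧ Fam G Z M U r D (insert s C)) =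
          Fam G Z M (U.erase s) (fun v => if s ∈ cn G v then r v - 1 else r v)
            (D.erase s) := funext fun C => propext (fam_insert hsU hsZ)
      have hσ' := signOn_erase hsU hsZ hσ
      rw [e]
      generalize hr'def : (fun v => if s ∈ cn G v then r v - 1 else r v) = r'
      have hval : ∀ v, r' v = if s ∈ cn G v then r v - 1 else r v := fun v => by rw [← hr'def]
      have hle : ∀ v, r' v ≤ r v := by
        intro v
        rw [hval]
        split_ifs <;> omega
      refine ih (V'.erase s) (U.erase s) A r' (cn G s ::ₘ Q) _ _ c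
        (measure_erase hs.1 hle (Finset.erase_subset _ _) hn) ?_ hσ' ?_ ?_
      · constructor
        · exact Finset.erase_subset_erase _ d.UV
        · exact Finset.disjoint_of_subset_left (Finset.erase_subset _ _) d.VZ
        · intro v hv
          have h1 : r v ≠ 0 := fun h => hv (by have := hle v; omega)
          exact Finset.mem_erase.2 ⟨fun h => h1 (h ▸ hrs), d.supp v h1⟩
        · intro v
          exact (hle v).trans (d.le2 v)
        · intro a ha
          exact Finset.mem_erase.2 ⟨fun h => hsA (h ▸ ha), d.AU ha⟩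
        · exact d.ind
        · intro p hp u hu v hv hu' hv' huv
          rw [Multiset.mem_cons] at hp
          rcases hp with rfl | hp
          · exact hs.adj (Finset.mem_of_mem_erase hu') (Finset.mem_of_mem_erase hv') hu hv huv
          · exact d.clq p hp u hu v hv (Finset.mem_of_mem_erase hu')
              (Finset.mem_of_mem_erase hv') huv
        · intro v hv h
          have hvV := Finset.mem_of_mem_erase hv
          have h' : r v ≠ 0 ∨ v ∈ A := by
            rcases h with h | h
            · left
              intro h0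
              apply h
              have := hle v
              omega
            · right; exact h
          have h1 := d.cov v hvV h'
          rw [mult_cons, hval]
          by_cases hvs : s ∈ cn G v
          · have hvs' := mem_cn_comm.1 hvs
            rw [if_pos hvs, if_pos hvs']
            omega
          · have hvs' : v ∉ cn G s := fun h => hvs (mem_cn_comm.1 h)
            rw [if_neg hvs, if_neg hvs']
            omega
      · rw [Multiset.card_cons]; omega
      · intro _
        exact Or.inr (Or.inr (Multiset.cons_ne_zero))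
  intro D σ c hσ hc
  by_cases hsD : s ∈ D
  · exact key hsD hσ hc
  · apply van_ext (P1 := Fam G Z M (U.erase s) r D) (P2 := Fam G Z M U r (insert s D))
      (fam_conv hMup U r D) (signOn_fam hσ)
    · intro C
      rw [fam_erase hsZ, fam_insertD]
      tauto
    · intro C h1 h2
      rw [fam_erase hsZ] at h1
      rw [fam_insertD] at h2
      exact h1.2 h2.2
    · intro C t ht h1 h2
      rw [fam_erase hsZ] at h1 ⊢
      exact ⟨h2, fun h => h1.2 (Finset.mem_insert_of_mem h)⟩
    · have hσ' := signOn_sub (Finset.erase_subset s U) hσ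
      exact ih (V'.erase s) (U.erase s) A r Q D σ c
        (measure_erase hs.1 (fun v => le_rfl) (Finset.erase_subset _ _) hn)
        (dat_erase d (Finset.erase_subset _ _) (Finset.notMem_erase _ _) subset_rfl
          (fun a ha => Finset.mem_erase.2 ⟨fun h => hsA (h ▸ ha), d.AU ha⟩)
          (fun v => Or.inl rfl) hrs) hσ' hc (fun _ => Or.inl hr)
    · exact key (Finset.mem_insert_self _ _) hσ hc

/-- the case `r s = 0` -/
lemma case_zero {n : ℕ} (hMup : ∀ A B, M A → A ⊆ B → M B)
    (ih : Claim G Z M q K n) {V' U A : Finset V} {r : V → ℕ} {Q : Multiset (Finset V)} {s : V}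
    {D : Finset V} {σ : V → Finset V → K} {c : ℕ}
    (hn : V'.card + ∑ v ∈ V', r v + U.card ≤ n + 1)
    (d : Dat G Z V' U A r Q) (hσ : SignOn (fun C => C ⊆ U ∪ Z) σ) (hc : c + Q.card ≤ A.card + q)
    (hr : ∃ v, r v ≠ 0) (hs : Simp G V' s) (hrs : r s = 0) :
    Van (Fam G Z M U r D) σ c := by
  by_cases hsU : s ∈ U
  · by_cases hsA : s ∈ A
    · -- merge two cliques containing s
      have h2 := d.cov s hs.1 (Or.inr hsA)
      rw [hrs, zero_add] at h2
      obtain ⟨p1, Q1, rfl, hp1⟩ := exists_of_mult_pos (Q := Q) (v := s) (by omega)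
      rw [mult_cons, if_pos hp1] at h2
      obtain ⟨p2, Q2, rfl, hp2⟩ := exists_of_mult_pos (Q := Q1) (v := s) (by omega)
      have hpc : ∀ p ∈ p1 ::ₘ p2 ::ₘ Q2, s ∈ p → ∀ v ∈ V', v ∈ p → v ∈ cn G s := by
        intro p hp hsp v hv hvp
        rw [mem_cn]
        by_cases h : v = s
        · exact Or.inl h
        · exact Or.inr (d.clq p hp s hsp v hvp hs.1 hv (Ne.symm h))
      have hAc := Finset.card_erase_add_one hsA
      have d' : Dat G Z V' U (A.erase s) r (cn G s ::ₘ Q2) := by
        constructor
        · exact d.UV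
        · exact d.VZ
        · exact d.supp
        · exact d.le2
        · exact (Finset.erase_subset _ _).trans d.AU
        · exact fun a ha b hb => d.ind a (Finset.mem_of_mem_erase ha) b (Finset.mem_of_mem_erase hb)
        · intro p hp u hu v hv hu' hv' huv
          rw [Multiset.mem_cons] at hp
          rcases hp with rfl | hp
          · exact hs.adj hu' hv' hu hv huv
          · exact d.clq p (by simp [hp]) u hu v hv hu' hv' huv
        · intro v hv h
          have h' : r v ≠ 0 ∨ v ∈ A := h.imp id Finset.mem_of_mem_erase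
          have h1 := d.cov v hv h'
          rw [mult_cons, mult_cons] at h1
          rw [mult_cons]
          by_cases hvs : v ∈ cn G s
          · rw [if_pos hvs]
            have hrv : r v ≠ 0 := by
              rcases h with h | h
              · exact h
              · exfalso
                have hvA := Finset.mem_of_mem_erase h
                rw [mem_cn] at hvs
                rcases hvs with hvs | hvs
                · exact absurd hvs (Finset.ne_of_mem_erase h)
                · exact d.ind s hsA v hvA hvs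
            have := d.le2 v
            split_ifs at h1 <;> omega
          · have n1 : v ∉ p1 := fun h => hvs (hpc p1 (by simp) hp1 v hv h)
            have n2 : v ∉ p2 := fun h => hvs (hpc p2 (by simp) hp2 v hv h)
            rw [if_neg n1, if_neg n2] at h1
            rw [if_neg hvs]
            omega
      apply case_zero_aux hMup ih hn d' hr hs hrs hsU (Finset.notMem_erase _ _) hσ
      simp only [Multiset.card_cons] at hc ⊢
      omega
    · exact case_zero_aux hMup ih hn d hr hs hrs hsU hsA hσ hc
  · exact ih (V'.erase s) U A r Q D σ c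
      (measure_erase hs.1 (fun v => le_rfl) subset_rfl hn)
      (dat_erase d subset_rfl hsU subset_rfl d.AU (fun v => Or.inl rfl) hrs) hσ hc
      (fun _ => Or.inl hr)

/-- the case `r s = 1` -/
lemma case_one {n : ℕ} (hMup : ∀ A B, M A → A ⊆ B → M B)
    (ih : Claim G Z M q K n) {V' U A : Finset V} {r : V → ℕ} {Q : Multiset (Finset V)} {s : V}
    {D : Finset V} {σ : V → Finset V → K} {c : ℕ}
    (hn : V'.card + ∑ v ∈ V', r v + U.card ≤ n + 1)
    (d : Dat G Z V' U A r Q) (hσ : SignOn (fun C => C ⊆ U ∪ Z) σ) (hc : c + Q.card ≤ A.card + q)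
    (hs : Simp G V' s) (hrs : r s = 1) :
    Van (Fam G Z M U r D) σ c := by
  have hUZ : Disjoint U Z := Finset.disjoint_of_subset_left d.UV d.VZ
  have h2 := d.cov s hs.1 (Or.inl (by omega))
  obtain ⟨p, Q, rfl, hp⟩ := exists_of_mult_pos (Q := Q) (v := s) (by omega)
  have hpc : ∀ v ∈ V', v ∈ p → v ∈ cn G s := by
    intro v hv hvp
    rw [mem_cn]
    by_cases h : v = s
    · exact Or.inl h
    · exact Or.inr (d.clq p (Multiset.mem_cons_self _ _) s hp v hvp hs.1 hv (Ne.symm h))
  rw [Multiset.card_cons] at hc
  obtain ⟨r', hr'⟩ : ∃ r' : V → ℕ, ∀ v, r' v = if v ∈ cn G s ∧ r v = 1 then 0 else r v :=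
    ⟨_, fun v => rfl⟩
  have hle : ∀ v, r' v ≤ r v := by
    intro v; rw [hr']; split_ifs <;> omega
  have hr's : r' s = 0 := by rw [hr', if_pos ⟨self_mem_cn, hrs⟩]
  have hAc : A.card ≤ (A \ cn G s).card + 1 := card_sdiff hs (d.AU.trans d.UV) d.ind
  set A1 : Finset V := A.filter (fun a => ¬ (a ∈ cn G s ∧ r a ≤ 1)) with hA1
  have hA1c : (A \ cn G s).card ≤ A1.card := by
    apply Finset.card_le_card
    intro a ha
    rw [Finset.mem_sdiff] at ha
    rw [hA1, Finset.mem_filter]
    exact ⟨ha.1, fun h => ha.2 h.1⟩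
  have hA1A : A1 ⊆ A := Finset.filter_subset _ _
  -- the data without `p`
  have dB : Dat G Z V' U A1 r' Q := by
    constructor
    · exact d.UV
    · exact d.VZ
    · intro v hv
      apply d.supp v
      intro h
      have := hle v
      omega
    · exact fun v => (hle v).trans (d.le2 v)
    · exact hA1A.trans d.AU
    · exact fun a ha b hb => d.ind a (hA1A ha) b (hA1A hb)
    · exact fun p' hp' => d.clq p' (Multiset.mem_cons_of_mem hp')
    · intro v hv h
      have hrv : r' v ≠ 0 ∨ v ∈ A := h.imp id (fun h => hA1A h)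
      have h' : r v ≠ 0 ∨ v ∈ A := by
        rcases hrv with h | h
        · left; intro h0; apply h; have := hle v; omega
        · exact Or.inr h
      have h3 := d.cov v hv h'
      rw [mult_cons] at h3
      have hr'v := hr' v
      by_cases hvs : v ∈ cn G s
      · -- then r v = 2
        have hrv2 : ¬ (r v ≤ 1) := by
          intro hle1
          rcases h with h | h
          · apply h
            rw [hr'v]
            split_ifs with h5
            · rfl
            · have : r v ≠ 1 := fun h6 => h5 ⟨hvs, h6⟩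
              omega
          · rw [hA1, Finset.mem_filter] at h
            exact h.2 ⟨hvs, hle1⟩
        rw [hr'v, if_neg (by omega)]
        have := d.le2 v
        omega
      · have hvp : v ∉ p := fun h => hvs (hpc v hv h)
        rw [if_neg hvp] at h3
        rw [hr'v, if_neg (fun h => hvs h.1)]
        omega
  apply van_quot (P := Fam G Z M U r' D) (P1 := Fam G Z M (U \ cn G s) r' D)
    (fam_conv hMup U r' D) (signOn_fam hσ)
  · intro C
    rw [fam_sdiff hUZ]
    constructor
    · intro hC
      by_cases he : C ∩ U ∩ cn G s = ∅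
      · exact Or.inl ⟨hC, he⟩
      · right
        refine ⟨hC.1, hC.2.1, hC.2.2.1, fun v => ?_⟩
        have h3 := hC.2.2.2 v
        rw [hr'] at h3
        split_ifs at h3 with h4
        · -- v in N[s], r v = 1
          rw [h4.2, Nat.one_le_iff_ne_zero, Finset.card_ne_zero]
          obtain ⟨x, hx⟩ := Finset.nonempty_iff_ne_empty.2 he
          refine ⟨x, ?_⟩
          simp only [Finset.mem_inter] at hx ⊢
          refine ⟨hx.1, ?_⟩
          have hvV : v ∈ V' := d.supp v (by omega)
          exact hs.mem (d.UV hx.1.2) hvV hx.2 h4.1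
        · exact h3
    · rintro (h | h)
      · exact h.1
      · exact ⟨h.1, h.2.1, h.2.2.1, fun v => (hle v).trans (h.2.2.2 v)⟩
  · intro C h1 h2
    rw [fam_sdiff hUZ] at h1
    have := h2.2.2.2 s
    rw [h1.2, hrs] at this
    simp at this
  · intro C t ht h1 h2
    rw [fam_sdiff hUZ] at h1 ⊢
    refine ⟨h2, ?_⟩
    rw [← Finset.subset_empty, ← h1.2]
    exact Finset.inter_subset_inter_right (Finset.inter_subset_inter_right (Finset.subset_insert _ _))
  · apply ih V' U A1 r' Q D σ c
      (measure_drop hs.1 hle (by omega) subset_rfl hn) dB hσ (by omega)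
    intro heq
    right; left
    have : 0 < A.card ∨ A.card = 0 := by omega
    by_contra hU
    rw [Finset.not_nonempty_iff_eq_empty] at hU
    have hA0 : A = ∅ := Finset.subset_empty.1 (hU ▸ d.AU)
    have hA10 : A1 = ∅ := Finset.subset_empty.1 (hA0 ▸ hA1A)
    rw [hA0, Finset.card_empty] at hc
    rw [hA10, Finset.card_empty] at heq
    omega
  · intro c' hc'
    apply ih V' (U \ cn G s) (A1 \ cn G s) r' Q D σ c'
      (measure_drop hs.1 hle (by omega) Finset.sdiff_subset hn) _
      (signOn_sub Finset.sdiff_subset hσ)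
    · have e : A \ cn G s ⊆ A1 \ cn G s := by
        intro a ha
        rw [Finset.mem_sdiff] at ha ⊢
        refine ⟨?_, ha.2⟩
        rw [hA1, Finset.mem_filter]
        exact ⟨ha.1, fun h => ha.2 h.1⟩
      have := Finset.card_le_card e
      omega
    · have e : A \ cn G s ⊆ A1 \ cn G s := by
        intro a ha
        rw [Finset.mem_sdiff] at ha ⊢
        refine ⟨?_, ha.2⟩
        rw [hA1, Finset.mem_filter]
        exact ⟨ha.1, fun h => ha.2 h.1⟩
      have := Finset.card_le_card e
      intro heq
      omega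
    · constructor
      · exact Finset.sdiff_subset.trans dB.UV
      · exact dB.VZ
      · exact dB.supp
      · exact dB.le2
      · exact Finset.sdiff_subset_sdiff dB.AU subset_rfl
      · exact fun a ha b hb => dB.ind a (Finset.sdiff_subset ha) b (Finset.sdiff_subset hb)
      · exact dB.clq
      · exact fun v hv h => dB.cov v hv (h.imp id fun h => Finset.sdiff_subset h)

/-- the case `r s = 2`, `s ∉ U` -/
lemma case_two_notMem {n : ℕ} (hMup : ∀ A B, M A → A ⊆ B → M B)
    (ih : Claim G Z M q K n) {V' U A : Finset V} {r : V → ℕ} {Q : Multiset (Finset V)} {s : V}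
    {D : Finset V} {σ : V → Finset V → K} {c : ℕ}
    (hn : V'.card + ∑ v ∈ V', r v + U.card ≤ n + 1)
    (d : Dat G Z V' U A r Q) (hσ : SignOn (fun C => C ⊆ U ∪ Z) σ) (hc : c + Q.card ≤ A.card + q)
    (hs : Simp G V' s) (hrs : r s = 2) (hsU : s ∉ U) :
    Van (Fam G Z M U r D) σ c := by
  have hUZ : Disjoint U Z := Finset.disjoint_of_subset_left d.UV d.VZ
  by_cases hUne : U.Nonempty
  swap
  · rw [Finset.not_nonempty_iff_eq_empty] at hUne
    subst hUne
    apply van_of_not
    intro C _ hF
    have := hF.2.2.2 s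
    rw [hrs] at this
    simp at this
  obtain ⟨r', hr'⟩ : ∃ r' : V → ℕ, ∀ v, r' v = if v = s then 0 else r v := ⟨_, fun v => rfl⟩
  have hle : ∀ v, r' v ≤ r v := by
    intro v; rw [hr']; split_ifs <;> omega
  have hr's : r' s = 0 := by rw [hr', if_pos rfl]
  have hAc : A.card ≤ (A \ cn G s).card + 1 := card_sdiff hs (d.AU.trans d.UV) d.ind
  have hsA : s ∉ A := fun h => hsU (d.AU h)
  have hor : ∀ v, r' v = r v ∨ (r' v = 0 ∧ v ∉ A) := by
    intro v
    rw [hr']
    by_cases h : v = s
    · rw [if_pos h]; exact Or.inr ⟨rfl, h ▸ hsA⟩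
    · rw [if_neg h]; exact Or.inl rfl
  have hor' : ∀ v, r' v = r v ∨ (r' v = 0 ∧ v ∉ A \ cn G s) := fun v =>
    (hor v).imp id (fun h => ⟨h.1, fun h' => h.2 (Finset.sdiff_subset h')⟩)
  -- membership description
  have hfam : ∀ C, Fam G Z M U r D C ↔ Fam G Z M U r' D C ∧ 2 ≤ (C ∩ U ∩ cn G s).card := by
    intro C
    constructor
    · intro h
      refine ⟨⟨h.1, h.2.1, h.2.2.1, fun v => (hle v).trans (h.2.2.2 v)⟩, ?_⟩
      have := h.2.2.2 s
      omega
    · rintro ⟨h, h2⟩
      refine ⟨h.1, h.2.1, h.2.2.1, fun v => ?_⟩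
      have := h.2.2.2 v
      rw [hr'] at this
      split_ifs at this with h3
      · subst h3; omega
      · exact this
  have hconv : Conv (fun C => Fam G Z M U r' D C ∧ (C ∩ U ∩ cn G s).card ≤ 1) := by
    intro A' B C hA hC hAB hBC
    refine ⟨fam_conv hMup U r' D A' B C hA.1 hC.1 hAB hBC, le_trans (Finset.card_le_card ?_) hC.2⟩
    exact Finset.inter_subset_inter_right (Finset.inter_subset_inter_right hBC)
  have hsub : ∀ (C : Finset V) (t : V),
      C ∩ U ∩ cn G s ⊆ insert t C ∩ U ∩ cn G s := fun C t =>
    (Finset.inter_subset_inter_right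
      (Finset.inter_subset_inter_right (Finset.subset_insert _ _)))
  have hmono : ∀ (C : Finset V) (t : V),
      (C ∩ U ∩ cn G s).card ≤ (insert t C ∩ U ∩ cn G s).card := fun C t =>
    Finset.card_le_card (hsub C t)
  apply van_quot (P := Fam G Z M U r' D)
    (P1 := fun C => Fam G Z M U r' D C ∧ (C ∩ U ∩ cn G s).card ≤ 1)
    (fam_conv hMup U r' D) (signOn_fam hσ)
  · intro C
    rw [hfam]
    constructor
    · intro h
      by_cases h1 : (C ∩ U ∩ cn G s).card ≤ 1
      · exact Or.inl ⟨h, h1⟩
      · exact Or.inr ⟨h, by omega⟩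
    · rintro (h | h)
      · exact h.1
      · exact h.1
  · intro C h1 h2
    rw [hfam] at h2
    have := h1.2
    omega
  · intro C t ht h1 h2
    exact ⟨h2, (hmono C t).trans h1.2⟩
  · exact ih (V'.erase s) U A r' Q D σ c (measure_erase hs.1 hle subset_rfl hn)
      (dat_erase d subset_rfl hsU subset_rfl d.AU hor hr's) hσ hc
      (fun _ => Or.inr (Or.inl hUne))
  · intro c' hc'
    apply van_ext (P1 := Fam G Z M (U \ cn G s) r' D)
      (P2 := fun C => Fam G Z M U r' D C ∧ (C ∩ U ∩ cn G s).card = 1) hconv
      ((signOn_fam hσ).mono (fun C hC => hC.1) : SignOn _ σ)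
    · intro C
      rw [fam_sdiff hUZ]
      constructor
      · rintro ⟨h1, h2⟩
        rcases Nat.le_one_iff_eq_zero_or_eq_one.1 h2 with h | h
        · exact Or.inl ⟨h1, Finset.card_eq_zero.1 h⟩
        · exact Or.inr ⟨h1, h⟩
      · rintro (⟨h1, h2⟩ | ⟨h1, h2⟩)
        · exact ⟨h1, by rw [h2]; simp⟩
        · exact ⟨h1, h2.le⟩
    · intro C h1 h2
      rw [fam_sdiff hUZ] at h1
      have := h2.2
      rw [h1.2] at this
      simp at this
    · intro C t ht h1 h2
      rw [fam_sdiff hUZ] at h1 ⊢
      refine ⟨h2.1, ?_⟩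
      rw [← Finset.subset_empty, ← h1.2]
      exact hsub C t
    · apply ih (V'.erase s) (U \ cn G s) (A \ cn G s) r' Q D σ c'
        (measure_erase hs.1 hle Finset.sdiff_subset hn)
        (dat_erase d Finset.sdiff_subset (fun h => hsU (Finset.mem_sdiff.1 h).1)
          Finset.sdiff_subset (Finset.sdiff_subset_sdiff d.AU subset_rfl) hor' hr's)
        (signOn_sub Finset.sdiff_subset hσ) (by omega)
      intro heq
      by_cases hQ : Q = 0
      · by_cases hrr : ∃ v, r' v ≠ 0
        · exact Or.inl hrr
        · exfalso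
          push Not at hrr
          have hA0 : A = ∅ := by
            rw [Finset.eq_empty_iff_forall_notMem]
            intro a ha
            have h1 := d.cov a (d.UV (d.AU ha)) (Or.inr ha)
            rw [hQ] at h1
            simp only [mult, Multiset.countP_zero, add_zero] at h1
            have h2 := hrr a
            have h3 : a ≠ s := fun h => hsA (h ▸ ha)
            rw [hr', if_neg h3] at h2
            omega
          subst hA0
          simp at heq hc
          omega
      · exact Or.inr (Or.inr hQ)
    · apply van_label (X := U ∩ cn G s)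
        (Q := fun x C => Fam G Z M U r' D C ∧ C ∩ U ∩ cn G s = {x})
      · intro C
        constructor
        · rintro ⟨h1, h2⟩
          obtain ⟨x, hx⟩ := Finset.card_eq_one.1 h2
          have hxm : x ∈ C ∩ U ∩ cn G s := by rw [hx]; simp
          simp only [Finset.mem_inter] at hxm
          exact ⟨x, Finset.mem_inter.2 ⟨hxm.1.2, hxm.2⟩, h1, hx⟩
        · rintro ⟨x, hx, h1, h2⟩
          exact ⟨h1, by rw [h2]; simp⟩
      · intro C x y h1 h2
        exact Finset.singleton_injective (h1.2.symm.trans h2.2)
      · intro C t x ht h1 h2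
        refine ⟨h2.1, Finset.eq_of_subset_of_card_le (h1.2 ▸ hsub C t) ?_⟩
        rw [h2.2, Finset.card_singleton]
      · intro x hx
        rw [Finset.mem_inter] at hx
        refine van_congr (P := Fam G Z M (insert x (U \ cn G s)) r' (insert x D))
          (fun C => fam_single hUZ hx.1 hx.2) ?_
        have hU' : insert x (U \ cn G s) ⊆ U := Finset.insert_subset hx.1 Finset.sdiff_subset
        exact ih (V'.erase s) (insert x (U \ cn G s)) (A \ cn G s) r' Q (insert x D) σ c'
          (measure_erase hs.1 hle hU' hn)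
          (dat_erase d hU' (fun h => hsU (hU' h))
            Finset.sdiff_subset ((Finset.sdiff_subset_sdiff d.AU subset_rfl).trans
              (Finset.subset_insert _ _)) hor' hr's)
          (signOn_sub hU' hσ) (by omega)
          (fun _ => Or.inr (Or.inl ⟨x, Finset.mem_insert_self _ _⟩))

/-- the shift at `s` of a piece of the family -/
lemma fam_pair {V' U D C : Finset V} {r r' : V → ℕ} {s x : V} (hUV : U ⊆ V')
    (hVZ : Disjoint V' Z)
    (hsupp : ∀ v, r v ≠ 0 → v ∈ V') (hr2 : ∀ v, r v ≤ 2) (hs : Simp G V' s) (hsU : s ∈ U)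
    (hsD : s ∉ D) (hxU : x ∈ U) (hxs : x ∈ cn G s) (hne : x ≠ s)
    (hr' : ∀ v, r' v = if v ∈ cn G s then 0 else r v) :
    (s ∉ C ∧ Fam G Z M U r D (insert s C) ∧ insert s C ∩ U ∩ cn G s = {s, x}) ↔
      Fam G Z M (insert x (U \ cn G s)) r' (insert x D) C := by
  have hUZ : Disjoint U Z := Finset.disjoint_of_subset_left hUV hVZ
  have hsZ : s ∉ Z := Finset.disjoint_left.1 hVZ hs.1
  have hZ : insert s C ∩ Z = C ∩ Z := Finset.insert_inter_of_notMem hsZ
  have hsub : insert x (U \ cn G s) ⊆ U := Finset.insert_subset hxU Finset.sdiff_subset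
  constructor
  · rintro ⟨hsC, ⟨h1, h2, h3, h4⟩, h5⟩
    have hmem : ∀ y, y ∈ C → y ∈ U → y ∈ cn G s → y = x := by
      intro y hy1 hy2 hy3
      have : y ∈ insert s C ∩ U ∩ cn G s := by
        simp only [Finset.mem_inter]
        exact ⟨⟨Finset.mem_insert_of_mem hy1, hy2⟩, hy3⟩
      rw [h5] at this
      simp only [Finset.mem_insert, Finset.mem_singleton] at this
      rcases this with h | h
      · exact absurd (h ▸ hy1) hsC
      · exact h
    have hxC : x ∈ C := by
      have : x ∈ insert s C ∩ U ∩ cn G s := by rw [h5]; simp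
      simp only [Finset.mem_inter, Finset.mem_insert] at this
      exact this.1.1.resolve_left hne
    refine ⟨?_, ?_, by rwa [hZ] at h3, ?_⟩
    · intro y hy
      have := h1 (Finset.mem_insert_of_mem hy)
      rw [Finset.mem_union] at this
      rw [Finset.mem_union, Finset.mem_insert, Finset.mem_sdiff]
      rcases this with h | h
      · left
        by_cases hys : y ∈ cn G s
        · left; exact hmem y hy h hys
        · right; exact ⟨h, hys⟩
      · right; exact h
    · apply Finset.insert_subset hxC
      intro y hy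
      have := h2 hy
      rw [Finset.mem_insert] at this
      exact this.resolve_left (fun h => hsD (h ▸ hy))
    · intro v
      rw [hr']
      split_ifs with hv
      · exact Nat.zero_le _
      · refine (h4 v).trans (Finset.card_le_card ?_)
        intro y hy
        simp only [Finset.mem_inter, Finset.mem_insert, Finset.mem_sdiff] at hy ⊢
        have hys : y ≠ s := by
          rintro rfl
          exact hv (mem_cn_comm.1 hy.2)
        have hyC : y ∈ C := hy.1.1.resolve_left hys
        refine ⟨⟨hyC, ?_⟩, hy.2⟩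
        by_cases h : y ∈ cn G s
        · left; exact hmem y hyC hy.1.2 h
        · right; exact ⟨hy.1.2, h⟩
  · rintro ⟨h1, h2, h3, h4⟩
    have hsC : s ∉ C := by
      intro h
      have := h1 h
      rw [Finset.mem_union, Finset.mem_insert, Finset.mem_sdiff] at this
      rcases this with (h | h) | h
      · exact hne h.symm
      · exact h.2 self_mem_cn
      · exact hsZ h
    have hxC : x ∈ C := h2 (Finset.mem_insert_self _ _)
    have h5 : insert s C ∩ U ∩ cn G s = {s, x} := by
      ext y
      simp only [Finset.mem_inter, Finset.mem_insert, Finset.mem_singleton]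
      constructor
      · rintro ⟨⟨hy1 | hy1, hy2⟩, hy3⟩
        · exact Or.inl hy1
        · have := h1 hy1
          rw [Finset.mem_union, Finset.mem_insert, Finset.mem_sdiff] at this
          rcases this with (h | h) | h
          · exact Or.inr h
          · exact absurd hy3 h.2
          · exact absurd h (Finset.disjoint_left.1 hUZ hy2)
      · rintro (rfl | rfl)
        · exact ⟨⟨Or.inl rfl, hsU⟩, self_mem_cn⟩
        · exact ⟨⟨Or.inr hxC, hxU⟩, hxs⟩
    refine ⟨hsC, ⟨?_, ?_, by rwa [hZ], ?_⟩, h5⟩
    · apply Finset.insert_subset (Finset.mem_union_left _ hsU)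
      exact h1.trans (Finset.union_subset_union_left hsub)
    · exact ((Finset.subset_insert _ _).trans h2).trans (Finset.subset_insert _ _)
    · intro v
      by_cases hv : v ∈ cn G s
      · by_cases hv0 : r v = 0
        · rw [hv0]; exact Nat.zero_le _
        · have hvV := hsupp v hv0
          have hsv : s ∈ cn G v := mem_cn_comm.1 hv
          have hxv : x ∈ cn G v := hs.mem (hUV hxU) hvV hxs hv
          refine (hr2 v).trans ?_
          rw [← Finset.card_pair (Ne.symm hne)]
          apply Finset.card_le_card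
          intro y hy
          simp only [Finset.mem_inter, Finset.mem_insert, Finset.mem_singleton] at hy ⊢
          rcases hy with rfl | rfl
          · exact ⟨⟨Or.inl rfl, hsU⟩, hsv⟩
          · exact ⟨⟨Or.inr hxC, hxU⟩, hxv⟩
      · have := h4 v
        rw [hr', if_neg hv] at this
        refine this.trans (Finset.card_le_card ?_)
        exact Finset.inter_subset_inter_right ((Finset.inter_subset_inter
          (Finset.subset_insert _ _) hsub))

/-- the case `r s = 2`, `s ∈ U`, `s ∉ D` -/
lemma case_two_mem_aux {n : ℕ} (hMup : ∀ A B, M A → A ⊆ B → M B)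
    (ih : Claim G Z M q K n) {V' U A : Finset V} {r : V → ℕ} {Q : Multiset (Finset V)} {s : V}
    {D : Finset V} {σ : V → Finset V → K} {c : ℕ}
    (hn : V'.card + ∑ v ∈ V', r v + U.card ≤ n + 1)
    (d : Dat G Z V' U A r Q) (hσ : SignOn (fun C => C ⊆ U ∪ Z) σ) (hc : c + Q.card ≤ A.card + q)
    (hs : Simp G V' s) (hrs : r s = 2) (hsU : s ∈ U) (hsD : s ∉ D) :
    Van (Fam G Z M U r D) σ c := by
  have hUZ : Disjoint U Z := Finset.disjoint_of_subset_left d.UV d.VZ
  have hsZ : s ∉ Z := Finset.disjoint_left.1 d.VZ hs.1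
  have hAc : A.card ≤ (A \ cn G s).card + 1 := card_sdiff hs (d.AU.trans d.UV) d.ind
  obtain ⟨r', hr'⟩ : ∃ r' : V → ℕ, ∀ v, r' v = if v ∈ cn G s then 0 else r v :=
    ⟨_, fun v => rfl⟩
  have hle : ∀ v, r' v ≤ r v := by
    intro v; rw [hr']; split_ifs <;> omega
  have hr's : r' s = 0 := by rw [hr', if_pos self_mem_cn]
  have hor' : ∀ v, r' v = r v ∨ (r' v = 0 ∧ v ∉ A \ cn G s) := by
    intro v
    rw [hr']
    split_ifs with h
    · right
      exact ⟨rfl, fun h' => (Finset.mem_sdiff.1 h').2 h⟩
    · left; rfl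
  have hsub : ∀ (C : Finset V) (t : V),
      C ∩ U ∩ cn G s ⊆ insert t C ∩ U ∩ cn G s := fun C t =>
    (Finset.inter_subset_inter_right
      (Finset.inter_subset_inter_right (Finset.subset_insert _ _)))
  have hcard2 : ∀ C, Fam G Z M U r D C → 2 ≤ (C ∩ U ∩ cn G s).card := by
    intro C hC
    have := hC.2.2.2 s
    omega
  -- same set if same cardinality
  have hsame : ∀ (C : Finset V) (t : V), Fam G Z M U r D C →
      (insert t C ∩ U ∩ cn G s).card = 2 → C ∩ U ∩ cn G s = insert t C ∩ U ∩ cn G s := by
    intro C t hC h2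
    apply Finset.eq_of_subset_of_card_le (hsub C t)
    rw [h2]; exact hcard2 C hC
  apply van_ext (P1 := fun C => Fam G Z M U r D C ∧ s ∈ C ∧ (C ∩ U ∩ cn G s).card = 2)
    (P2 := fun C => Fam G Z M U r D C ∧ (s ∉ C ∨ 3 ≤ (C ∩ U ∩ cn G s).card))
    (fam_conv hMup U r D) (signOn_fam hσ)
  · intro C
    constructor
    · intro h
      have := hcard2 C h
      by_cases hsC : s ∈ C
      · by_cases h2 : (C ∩ U ∩ cn G s).card = 2
        · exact Or.inl ⟨h, hsC, h2⟩
        · exact Or.inr ⟨h, Or.inr (by omega)⟩
      · exact Or.inr ⟨h, Or.inl hsC⟩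
    · rintro (h | h)
      · exact h.1
      · exact h.1
  · rintro C ⟨_, h1, h2⟩ ⟨_, h3⟩
    rcases h3 with h3 | h3
    · exact h3 h1
    · omega
  · rintro C t ht ⟨h1, h2, h3⟩ h4
    have h5 := hsame C t h4 h3
    have h6 : s ∈ C ∩ U ∩ cn G s := by
      rw [h5]
      simp only [Finset.mem_inter]
      exact ⟨⟨h2, hsU⟩, self_mem_cn⟩
    simp only [Finset.mem_inter] at h6
    exact ⟨h4, h6.1.1, by rw [h5, h3]⟩
  · -- label by the second element
    apply van_label (X := (U ∩ cn G s).erase s)
      (Q := fun x C => x ≠ s ∧ Fam G Z M U r D C ∧ C ∩ U ∩ cn G s = {s, x})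
    · intro C
      constructor
      · rintro ⟨h1, h2, h3⟩
        have hsm : s ∈ C ∩ U ∩ cn G s := by
          simp only [Finset.mem_inter]
          exact ⟨⟨h2, hsU⟩, self_mem_cn⟩
        have h4 := Finset.card_erase_of_mem hsm
        rw [h3] at h4
        obtain ⟨x, hx⟩ := Finset.card_eq_one.1 h4
        have hxm : x ∈ (C ∩ U ∩ cn G s).erase s := by rw [hx]; simp
        have hxm' := Finset.mem_of_mem_erase hxm
        have hxs := Finset.ne_of_mem_erase hxm
        simp only [Finset.mem_inter] at hxm'
        refine ⟨x, ?_, hxs, h1, ?_⟩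
        · rw [Finset.mem_erase, Finset.mem_inter]
          exact ⟨hxs, hxm'.1.2, hxm'.2⟩
        · rw [← Finset.insert_erase hsm, hx]
      · rintro ⟨x, hx, h0, h1, h2⟩
        have hsm : s ∈ C ∩ U ∩ cn G s := by rw [h2]; simp
        simp only [Finset.mem_inter] at hsm
        exact ⟨h1, hsm.1.1, by rw [h2, Finset.card_pair (Ne.symm h0)]⟩
    · rintro C x y ⟨h1, _, h2⟩ ⟨h3, _, h4⟩
      have : x ∈ ({s, y} : Finset V) := by rw [← h4, h2]; simp
      simp only [Finset.mem_insert, Finset.mem_singleton] at this
      exact this.resolve_left h1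
    · rintro C t x ht ⟨h1, h2, h3⟩ ⟨h4, h5, h6⟩
      refine ⟨h1, h4, ?_⟩
      rw [hsame C t h4 (by rw [h3, Finset.card_pair (Ne.symm h1)]), h3]
    · intro x hx
      rw [Finset.mem_erase, Finset.mem_inter] at hx
      obtain ⟨hxs, hxU, hxn⟩ := hx
      rcases c with _ | c
      · apply van_of_not
        rintro C hC ⟨_, _, h⟩
        rw [Finset.card_eq_zero.1 hC] at h
        simp at h
        exact Finset.insert_ne_empty _ _ h.symm
      · apply van_shift s
        · rintro C ⟨_, _, h⟩
          have : s ∈ C ∩ U ∩ cn G s := by rw [h]; simp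
          simp only [Finset.mem_inter] at this
          exact this.1.1
        · refine van_congr (P := Fam G Z M (insert x (U \ cn G s)) r' (insert x D))
            (fun C => ?_) ?_
          · rw [← fam_pair d.UV d.VZ d.supp d.le2 hs hsU hsD hxU hxn hxs hr']
            constructor
            · rintro ⟨h1, h2, h3⟩; exact ⟨h1, hxs, h2, h3⟩
            · rintro ⟨h1, _, h2, h3⟩; exact ⟨h1, h2, h3⟩
          · have hU' : insert x (U \ cn G s) ⊆ U := Finset.insert_subset hxU Finset.sdiff_subset
            have hsU' : s ∉ insert x (U \ cn G s) := by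
              rw [Finset.mem_insert, Finset.mem_sdiff]
              rintro (h | h)
              · exact hxs h.symm
              · exact h.2 self_mem_cn
            have hU'' : insert x (U \ cn G s) ⊆ U.erase s := fun y hy =>
              Finset.mem_erase.2 ⟨fun h => hsU' (h ▸ hy), hU' hy⟩
            exact ih (V'.erase s) (insert x (U \ cn G s)) (A \ cn G s) r' Q (insert x D) _ c
              (measure_erase hs.1 hle hU' hn)
              (dat_erase d hU' hsU'
                Finset.sdiff_subset ((Finset.sdiff_subset_sdiff d.AU subset_rfl).trans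
                  (Finset.subset_insert _ _)) hor' hr's)
              (signOn_sub hU'' (signOn_erase hsU hsZ hσ)) (by omega)
              (fun _ => Or.inr (Or.inl ⟨x, Finset.mem_insert_self _ _⟩))
  · -- cone
    apply van_cone ((signOn_fam hσ).mono (fun C hC => hC.1) : SignOn _ σ) s
    · rintro C ⟨h1, h2⟩
      by_cases hsC : s ∈ C
      · rw [Finset.insert_eq_of_mem hsC]; exact ⟨h1, h2⟩
      · have hF : Fam G Z M U r D (insert s C) := by
          refine ⟨Finset.insert_subset (Finset.mem_union_left _ hsU) h1.1,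
            h1.2.1.trans (Finset.subset_insert _ _), ?_, fun v => (h1.2.2.2 v).trans
              (Finset.card_le_card ?_)⟩
          · rw [Finset.insert_inter_of_notMem hsZ]; exact h1.2.2.1
          · exact Finset.inter_subset_inter_right
              (Finset.inter_subset_inter_right (Finset.subset_insert _ _))
        refine ⟨hF, Or.inr ?_⟩
        have e : insert s C ∩ U ∩ cn G s = insert s (C ∩ U ∩ cn G s) := by
          rw [Finset.insert_inter_of_mem hsU, Finset.insert_inter_of_mem self_mem_cn]
        rw [e, Finset.card_insert_of_notMem]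
        · have := hcard2 C h1
          omega
        · simp [hsC]
    · rintro C ⟨h1, h2⟩
      by_cases hsC : s ∈ C
      swap
      · rw [Finset.erase_eq_of_notMem hsC]; exact ⟨h1, h2⟩
      · have h3 : 3 ≤ (C ∩ U ∩ cn G s).card := h2.resolve_left (not_not.2 hsC)
        refine ⟨⟨(Finset.erase_subset _ _).trans h1.1, ?_, ?_, ?_⟩,
          Or.inl (Finset.notMem_erase _ _)⟩
        · intro y hy
          exact Finset.mem_erase.2 ⟨fun h => hsD (h ▸ hy), h1.2.1 hy⟩
        · have : C.erase s ∩ Z = C ∩ Z := by
            ext y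
            simp only [Finset.mem_inter, Finset.mem_erase]
            constructor
            · rintro ⟨⟨_, h1⟩, h2⟩; exact ⟨h1, h2⟩
            · rintro ⟨h1, h2⟩; exact ⟨⟨fun h => hsZ (h ▸ h2), h1⟩, h2⟩
          rw [this]; exact h1.2.2.1
        · intro v
          by_cases hv : v ∈ cn G s
          · by_cases hv0 : r v = 0
            · rw [hv0]; exact Nat.zero_le _
            · have hvV := d.supp v hv0
              refine (d.le2 v).trans ?_
              have h4 : (C ∩ U ∩ cn G s).erase s ⊆ C.erase s ∩ U ∩ cn G v := by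
                intro y hy
                simp only [Finset.mem_erase, Finset.mem_inter] at hy ⊢
                refine ⟨⟨⟨hy.1, hy.2.1.1⟩, hy.2.1.2⟩, ?_⟩
                exact hs.mem (d.UV hy.2.1.2) hvV hy.2.2 hv
              have h5 := Finset.card_le_card h4
              have h6 := card_erase_ge (C ∩ U ∩ cn G s) s
              omega
          · have e : C.erase s ∩ U ∩ cn G v = C ∩ U ∩ cn G v := by
              ext y
              simp only [Finset.mem_inter, Finset.mem_erase]
              constructor
              · rintro ⟨⟨⟨_, h1⟩, h2⟩, h3⟩; exact ⟨⟨h1, h2⟩, h3⟩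
              · rintro ⟨⟨h1, h2⟩, h7⟩
                refine ⟨⟨⟨?_, h1⟩, h2⟩, h7⟩
                rintro rfl
                exact hv (mem_cn_comm.1 h7)
            rw [e]; exact h1.2.2.2 v

/-- the case `r s = 2` -/
lemma case_two {n : ℕ} (hMup : ∀ A B, M A → A ⊆ B → M B)
    (ih : Claim G Z M q K n) {V' U A : Finset V} {r : V → ℕ} {Q : Multiset (Finset V)} {s : V}
    {D : Finset V} {σ : V → Finset V → K} {c : ℕ}
    (hn : V'.card + ∑ v ∈ V', r v + U.card ≤ n + 1)
    (d : Dat G Z V' U A r Q) (hσ : SignOn (fun C => C ⊆ U ∪ Z) σ) (hc : c + Q.card ≤ A.card + q)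
    (hs : Simp G V' s) (hrs : r s = 2) :
    Van (Fam G Z M U r D) σ c := by
  by_cases hsU : s ∈ U
  swap
  · exact case_two_notMem hMup ih hn d hσ hc hs hrs hsU
  by_cases hsD : s ∈ D
  swap
  · exact case_two_mem_aux hMup ih hn d hσ hc hs hrs hsU hsD
  have hsZ : s ∉ Z := Finset.disjoint_left.1 d.VZ hs.1
  apply van_quot (P := Fam G Z M U r (D.erase s)) (P1 := Fam G Z M (U.erase s) r (D.erase s))
    (fam_conv hMup U r _) (signOn_fam hσ)
  · intro C
    rw [fam_erase hsZ]
    have : Fam G Z M U r D C ↔ Fam G Z M U r (D.erase s) C ∧ s ∈ C := by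
      rw [← fam_insertD, Finset.insert_erase hsD]
    rw [this]
    tauto
  · intro C h1 h2
    rw [fam_erase hsZ] at h1
    exact h1.2 (h2.2.1 hsD)
  · intro C t ht h1 h2
    rw [fam_erase hsZ] at h1 ⊢
    exact ⟨h2, fun h => h1.2 (Finset.mem_insert_of_mem h)⟩
  · exact case_two_mem_aux hMup ih hn d hσ hc hs hrs hsU (Finset.notMem_erase _ _)
  · intro c' hc'
    have hAe := card_erase_ge A s
    refine ih V' (U.erase s) (A.erase s) r Q (D.erase s) σ c' ?_ ?_
      (signOn_sub (Finset.erase_subset _ _) hσ) (by omega) (fun _ => Or.inl ⟨s, by omega⟩)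
    · have := Finset.card_erase_add_one hsU
      omega
    · constructor
      · exact (Finset.erase_subset _ _).trans d.UV
      · exact d.VZ
      · exact d.supp
      · exact d.le2
      · exact Finset.erase_subset_erase _ d.AU
      · exact fun a ha b hb =>
          d.ind a (Finset.mem_of_mem_erase ha) b (Finset.mem_of_mem_erase hb)
      · exact d.clq
      · exact fun v hv h => d.cov v hv (h.imp id Finset.mem_of_mem_erase)

/-- the main vanishing theorem -/
theorem mainH (hMup : ∀ A B, M A → A ⊆ B → M B)
    (hM : ∀ (D : Finset V) (σ : V → Finset V → K) (c : ℕ), c < q →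
      SignOn (fun C => C ⊆ Z) σ → Van (fun C => C ⊆ Z ∧ D ⊆ C ∧ M C) σ c)
    (hsimp : ∀ S : Finset V, S.Nonempty → ∃ s, Simp G S s) (n : ℕ) : Claim G Z M q K n := by
  induction n with
  | zero =>
    intro V' U A r Q D σ c hn d hσ hc hex
    have hV : V' = ∅ := by
      rw [← Finset.card_eq_zero]; omega
    have hU : U = ∅ := Finset.subset_empty.1 (hV ▸ d.UV)
    have hr : ∀ v, r v = 0 := by
      intro v
      by_contra h
      have := d.supp v h
      rw [hV] at this
      simp at this
    exact base_case hM hU hr d.AU hσ hc hex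
  | succ n ih =>
    intro V' U A r Q D σ c hn d hσ hc hex
    by_cases hr : ∃ v, r v ≠ 0
    · have hV : V'.Nonempty := by
        obtain ⟨v, hv⟩ := hr
        exact ⟨v, d.supp v hv⟩
      obtain ⟨s, hs⟩ := hsimp V' hV
      have h2 := d.le2 s
      have h3 : r s = 0 ∨ r s = 1 ∨ r s = 2 := by omega
      rcases h3 with h3 | h3 | h3
      · exact case_zero hMup ih hn d hσ hc hr hs h3
      · exact case_one hMup ih hn d hσ hc hs h3
      · exact case_two hMup ih hn d hσ hc hs h3
    · push Not at hr
      exact case_none hM ih hn d hσ hc hex hr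

end Pool.Agent.H5Reg
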