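import Mathlib
import Pool.Agent.H5Reg.Ind
import Pool.Agent.H5Reg.Chord

set_option autoImplicit false

namespace Pool.Agent.H5Reg

open Classical SimpleGraph

variable {V : Type*} [Fintype V] [DecidableEq V] {K : Type*} [Field K] {G : SimpleGraph V}

/-- the vertices in components of a finset of components -/
noncomputable def SS (G : SimpleGraph V) (X : Finset G.ConnectedComponent) : Finset V :=
  Finset.univ.filter (fun v => G.connectedComponentMk v ∈ X)

lemma mem_SS {X : Finset G.ConnectedComponent} {v : V} :
    v ∈ SS G X ↔ G.connectedComponentMk v ∈ X := by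
  simp [SS]

lemma cn_SS {X : Finset G.ConnectedComponent} {v : V} (hv : v ∈ SS G X) : cn G v ⊆ SS G X := by
  intro u hu
  rw [mem_cn] at hu
  rcases hu with rfl | hu
  · exact hv
  · rw [mem_SS] at hv ⊢
    have : G.connectedComponentMk u = G.connectedComponentMk v :=
      ConnectedComponent.sound hu.symm.reachable
    rwa [this]

/-- the condition on sets `C` inside a union of components -/
def MM (G : SimpleGraph V) (S C : Finset V) : Prop := ∀ v ∈ S, 2 ≤ (C ∩ cn G v).card

theorem comp_van (hsimp : ∀ S : Finset V, S.Nonempty → ∃ s, Simp G S s) (A : Finset V)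
    (hA : ∀ a ∈ A, ∀ b ∈ A, ¬ G.Adj a b) (X : Finset G.ConnectedComponent) :
    ∀ (D : Finset V) (σ : V → Finset V → K) (c : ℕ), c < (A ∩ SS G X).card + X.card →
      SignOn (fun C => C ⊆ SS G X) σ →
      Van (fun C => C ⊆ SS G X ∧ D ⊆ C ∧ MM G (SS G X) C) σ c := by
  induction X using Finset.induction_on with
  | empty =>
    intro D σ c hc
    exfalso
    have : SS G (∅ : Finset G.ConnectedComponent) = ∅ := by simp [SS]
    rw [this] at hc
    simp at hc
  | insert κ X hκ ih =>
    intro D σ c hc hσ
    set Z := SS G X with hZ
    set U := SS G {κ} with hU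
    have hUZ : SS G (insert κ X) = U ∪ Z := by
      ext v
      rw [Finset.mem_union, mem_SS, mem_SS, mem_SS, Finset.mem_insert, Finset.mem_singleton]
    have hdisj : Disjoint U Z := by
      rw [Finset.disjoint_left]
      intro v hv hv'
      rw [mem_SS, Finset.mem_singleton] at hv
      rw [mem_SS, hv] at hv'
      exact hκ hv'
    rw [hUZ] at hσ hc ⊢
    have hUne : U.Nonempty := by
      obtain ⟨v, hv⟩ := κ.exists_rep
      refine ⟨v, ?_⟩
      rw [mem_SS, Finset.mem_singleton]
      exact hv
    have hcard : (A ∩ (U ∪ Z)).card = (A ∩ U).card + (A ∩ Z).card := by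
      rw [Finset.inter_union_distrib_left]
      apply Finset.card_union_of_disjoint
      exact Finset.disjoint_of_subset_left Finset.inter_subset_right
        (Finset.disjoint_of_subset_right Finset.inter_subset_right hdisj)
    rw [Finset.card_insert_of_notMem hκ, hcard] at hc
    have hup : ∀ B C : Finset V, MM G Z B → B ⊆ C → MM G Z C := by
      intro B C hB hBC v hv
      exact (hB v hv).trans (Finset.card_le_card (Finset.inter_subset_inter_right hBC))
    obtain ⟨r, hr⟩ : ∃ r : V → ℕ, ∀ v, r v = if v ∈ U then 2 else 0 := ⟨_, fun v => rfl⟩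
    have hmain := mainH (G := G) (Z := Z) (M := MM G Z) (q := (A ∩ Z).card + X.card) (K := K)
      hup (fun D σ c hc hσ => ih D σ c hc hσ) hsimp (U.card + ∑ v ∈ U, r v + U.card)
      U U (A ∩ U) r 0 D σ c le_rfl ?_ hσ ?_ (fun _ => Or.inr (Or.inl hUne))
    · refine van_congr (fun C => ?_) hmain
      unfold Fam
      constructor
      · rintro ⟨h1, h2, h3, h4⟩
        refine ⟨h1, h2, fun v hv => ?_⟩
        rw [Finset.mem_union] at hv
        rcases hv with hv | hv
        · have := h4 v
          rw [hr, if_pos hv] at this
          refine this.trans (Finset.card_le_card ?_)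
          exact Finset.inter_subset_inter_right Finset.inter_subset_left
        · refine (h3 v hv).trans (Finset.card_le_card ?_)
          exact Finset.inter_subset_inter_right Finset.inter_subset_left
      · rintro ⟨h1, h2, h3⟩
        refine ⟨h1, h2, ?_, ?_⟩
        · intro v hv
          refine (h3 v (Finset.mem_union_right _ hv)).trans (Finset.card_le_card ?_)
          intro x hx
          rw [Finset.mem_inter] at hx
          rw [Finset.mem_inter, Finset.mem_inter]
          exact ⟨⟨hx.1, cn_SS hv hx.2⟩, hx.2⟩
        · intro v
          rw [hr]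
          split_ifs with hv
          · refine (h3 v (Finset.mem_union_left _ hv)).trans (Finset.card_le_card ?_)
            intro x hx
            rw [Finset.mem_inter] at hx
            rw [Finset.mem_inter, Finset.mem_inter]
            exact ⟨⟨hx.1, cn_SS hv hx.2⟩, hx.2⟩
          · exact Nat.zero_le _
    · constructor
      · exact subset_rfl
      · exact hdisj
      · intro v hv
        rw [hr] at hv
        by_contra h
        exact hv (if_neg h)
      · intro v
        rw [hr]
        split_ifs <;> omega
      · exact Finset.inter_subset_right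
      · intro a ha b hb
        exact hA a (Finset.mem_inter.1 ha).1 b (Finset.mem_inter.1 hb).1
      · intro p hp
        exact absurd hp (Multiset.notMem_zero p)
      · intro v hv _
        rw [hr, if_pos hv]
        omega
    · rw [Multiset.card_zero]; omega

/-- the combinatorial form of the theorem -/
theorem van_all [Fintype G.ConnectedComponent]
    (hch : Chordal G) (A : Finset V) (hA : ∀ a ∈ A, ∀ b ∈ A, ¬ G.Adj a b)
    (D : Finset V) (σ : V → Finset V → K) (c : ℕ) (hc : c < A.card + Fintype.card G.ConnectedComponent)
    (hσ : SignOn (fun _ => True) σ) :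
    Van (fun C => D ⊆ C ∧ ∀ v, 2 ≤ (C ∩ cn G v).card) σ c := by
  have h1 := comp_van (K := K) (fun S hS => exists_simp hch S.card S le_rfl hS) A hA
    Finset.univ D σ c
  have h2 : SS G Finset.univ = Finset.univ := by
    ext v; simp [mem_SS]
  rw [h2, Finset.inter_univ, Finset.card_univ] at h1
  refine van_congr (fun C => ?_) (h1 hc (hσ.mono (fun _ _ => trivial)))
  unfold MM
  simp

end Pool.Agent.H5Reg
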