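import Mathlib
import Pool.Agent.H5Reg.Defs
import Pool.Agent.H5Reg.Cplx

set_option autoImplicit false

namespace Pool.Agent.H5Reg

open Classical MvPolynomial

variable {K : Type*} [Field K] {n : ℕ}

/-- the exponent vector of a set of variables -/
noncomputable def ind {n : ℕ} (T : Finset (Fin n)) : Fin n →₀ ℕ :=
  Finsupp.indicator T (fun _ _ => 1)

lemma ind_apply {T : Finset (Fin n)} {j : Fin n} : ind T j = if j ∈ T then 1 else 0 := by
  unfold ind
  rw [Finsupp.indicator_apply]
  split_ifs <;> rfl

lemma ind_insert {T : Finset (Fin n)} {t : Fin n} (ht : t ∉ T) :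
    ind (insert t T) = Finsupp.single t 1 + ind T := by
  ext j
  rw [Finsupp.add_apply, ind_apply, ind_apply, Finsupp.single_apply]
  by_cases h : t = j
  · subst h
    simp [ht]
  · have : j ≠ t := fun h' => h h'.symm
    simp [h, this]

/-- a monomial ideal given by a set of exponents -/
noncomputable def mi (K : Type*) [Field K] {n : ℕ} (S : Set (Fin n →₀ ℕ)) :
    Ideal (MvPolynomial (Fin n) K) :=
  Ideal.span ((fun s => monomial s (1 : K)) '' S)

/-- exponents of monomials in the ideal -/
def Bad {n : ℕ} (S : Set (Fin n →₀ ℕ)) (m : Fin n →₀ ℕ) : Prop := ∃ s ∈ S, s ≤ m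

lemma Bad.mono {S : Set (Fin n →₀ ℕ)} {m m' : Fin n →₀ ℕ} (h : Bad S m) (hm : m ≤ m') :
    Bad S m' := by
  obtain ⟨s, hs, hsm⟩ := h
  exact ⟨s, hs, hsm.trans hm⟩

lemma mem_mi {S : Set (Fin n →₀ ℕ)} {p : MvPolynomial (Fin n) K} :
    p ∈ mi K S ↔ ∀ m, ¬ Bad S m → coeff m p = 0 := by
  unfold mi
  rw [mem_ideal_span_monomial_image]
  constructor
  · intro h m hm
    by_contra hne
    exact hm (h m (mem_support_iff.2 hne))
  · intro h m hm
    by_contra hne
    exact (mem_support_iff.1 hm) (h m hne)

lemma mk_eq_iff {S : Set (Fin n →₀ ℕ)} {p q : MvPolynomial (Fin n) K} :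
    Ideal.Quotient.mk (mi K S) p = Ideal.Quotient.mk (mi K S) q ↔
      ∀ m, ¬ Bad S m → coeff m p = coeff m q := by
  rw [Ideal.Quotient.eq, mem_mi]
  simp only [coeff_sub, sub_eq_zero]

/-- the standard sign -/
def sg (K : Type*) [Field K] {n : ℕ} (t : Fin n) (T : Finset (Fin n)) : K :=
  (-1) ^ (T.filter (fun u => u < t)).card

/-- the family in multidegree `b` -/
def PB {n : ℕ} (S : Set (Fin n →₀ ℕ)) (b : Fin n →₀ ℕ) (T : Finset (Fin n)) : Prop :=
  ind T ≤ b ∧ ¬ Bad S (b - ind T)

/-- lift of the Koszul differential to polynomials -/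
noncomputable def kp (p : Finset (Fin n) → MvPolynomial (Fin n) K) (T : Finset (Fin n)) :
    MvPolynomial (Fin n) K := ∑ t ∈ Tᶜ, C (sg K t T) * (X t * p (insert t T))

lemma kd_mk (I : Ideal (MvPolynomial (Fin n) K)) (p : Finset (Fin n) → MvPolynomial (Fin n) K) :
    kd I (fun T => Ideal.Quotient.mk I (p T)) = fun T => Ideal.Quotient.mk I (kp p T) := by
  funext T
  unfold kd kp
  rw [map_sum]
  apply Finset.sum_congr rfl
  intro t _
  rw [map_mul, map_mul, ← mul_assoc]
  congr 2
  unfold sg
  simp

/-- key computation: coefficients of the Koszul differential -/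
lemma coeff_kp (p : Finset (Fin n) → MvPolynomial (Fin n) K) (T : Finset (Fin n))
    (m : Fin n →₀ ℕ) : coeff m (kp p T) =
      ∑ t ∈ Tᶜ, sg K t T * (if t ∈ m.support then coeff (m - Finsupp.single t 1) (p (insert t T))
        else 0) := by
  unfold kp
  rw [coeff_sum]
  apply Finset.sum_congr rfl
  intro t _
  rw [coeff_C_mul, coeff_X_mul']

lemma tsub_ind_insert {T : Finset (Fin n)} {t : Fin n} (ht : t ∉ T) (b : Fin n →₀ ℕ) :
    b - ind (insert t T) = (b - ind T) - Finsupp.single t 1 := by
  rw [ind_insert ht, add_comm, tsub_add_eq_tsub_tsub]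

lemma ind_insert_le {T : Finset (Fin n)} {t : Fin n} (ht : t ∉ T) {b : Fin n →₀ ℕ}
    (hb : ind T ≤ b) : ind (insert t T) ≤ b ↔ t ∈ (b - ind T).support := by
  rw [Finsupp.mem_support_iff, Finsupp.tsub_apply, ind_apply, if_neg ht, Nat.sub_zero]
  constructor
  · intro h
    have := h t
    rw [ind_apply, if_pos (Finset.mem_insert_self _ _)] at this
    omega
  · intro h j
    rw [ind_apply]
    split_ifs with h1
    · rw [Finset.mem_insert] at h1
      rcases h1 with rfl | h1
      · omega
      · have := hb j
        rw [ind_apply, if_pos h1] at this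
        exact this
    · exact Nat.zero_le _

/-- The multidegree pieces of the Koszul complex determine vanishing of Betti numbers. -/
theorem not_bettiNe {S : Set (Fin n →₀ ℕ)} {i d : ℕ}
    (h : ∀ b : Fin n →₀ ℕ, b.degree = i + d → Van (PB S b) (sg K) i) :
    ¬ BettiNe (mi K S) i d := by
  rintro ⟨f, hcard, hdeg, hcyc, hno⟩
  apply hno
  choose p0 hp0 hp0' using hdeg
  obtain ⟨p, hp, hpd, hpc⟩ : ∃ p : Finset (Fin n) → MvPolynomial (Fin n) K,
      (∀ T, Ideal.Quotient.mk (mi K S) (p T) = f T) ∧ (∀ T, (p T).IsHomogeneous d) ∧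
        (∀ T, T.card ≠ i → p T = 0) := by
    refine ⟨fun T => if T.card = i then p0 T else 0, ?_, ?_, ?_⟩
    · intro T
      beta_reduce
      split_ifs with hT
      · exact hp0' T
      · rw [hcard T hT, map_zero]
    · intro T
      beta_reduce
      split_ifs with hT
      · exact hp0 T
      · exact isHomogeneous_zero _ _ _
    · intro T hT
      exact if_neg hT
  have hfp : f = fun T => Ideal.Quotient.mk (mi K S) (p T) := funext fun T => (hp T).symm
  -- the multidegree components
  obtain ⟨F, hF⟩ : ∃ F : (Fin n →₀ ℕ) → Finset (Fin n) → K,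
      ∀ b T, F b T = if PB S b T then coeff (b - ind T) (p T) else 0 := ⟨_, fun _ _ => rfl⟩
  have hFchain : ∀ b, Chain (PB S b) i (F b) := by
    intro b T hT
    rw [hF] at hT
    split_ifs at hT with h1
    · refine ⟨h1, ?_⟩
      by_contra hc
      rw [hpc T hc] at hT
      exact hT (coeff_zero _)
    · exact absurd rfl hT
  have hFcyc : ∀ b T, PB S b T → bd (sg K) (F b) T = 0 := by
    intro b T hT
    have h1 : Ideal.Quotient.mk (mi K S) (kp p T) = 0 := by
      have := congrFun hcyc T
      rw [hfp, kd_mk] at this
      exact this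
    rw [Ideal.Quotient.eq_zero_iff_mem, mem_mi] at h1
    have h2 := h1 _ hT.2
    rw [coeff_kp] at h2
    rw [← h2]
    unfold bd
    apply Finset.sum_congr rfl
    intro t ht
    have htT : t ∉ T := by simpa using ht
    congr 1
    rw [hF]
    by_cases hsupp : t ∈ (b - ind T).support
    · have h3 : PB S b (insert t T) := by
        refine ⟨(ind_insert_le htT hT.1).2 hsupp, fun hbad => hT.2 (hbad.mono ?_)⟩
        rw [tsub_ind_insert htT]
        exact tsub_le_self
      rw [if_pos hsupp, if_pos h3, tsub_ind_insert htT]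
    · rw [if_neg hsupp, if_neg]
      intro h3
      exact hsupp ((ind_insert_le htT hT.1).1 h3.1)
  have hFdeg : ∀ b, b.degree ≠ i + d → F b = 0 := by
    intro b hb
    funext T
    by_contra hne
    have h1 := (hFchain b T hne)
    rw [hF, if_pos h1.1] at hne
    apply hb
    have h2 := (hpd T) hne
    have h3 : b = (b - ind T) + ind T := (tsub_add_cancel_of_le h1.1.1).symm
    rw [h3, map_add]
    have h4 : (ind T).degree = T.card := by
      rw [Finsupp.degree_eq_sum]
      simp [ind_apply]
    rw [h4, h1.2]
    have h5 : (b - ind T).degree = d := by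
      rw [Finsupp.degree_eq_weight_one]
      exact h2
    rw [h5, add_comm]
  have hG : ∀ b, ∃ g : Finset (Fin n) → K, Chain (PB S b) (i + 1) g ∧
      ∀ T, PB S b T → bd (sg K) g T = F b T := by
    intro b
    by_cases hb : b.degree = i + d
    · exact h b hb (F b) (hFchain b) (hFcyc b)
    · refine ⟨0, fun T hT => absurd rfl hT, fun T _ => ?_⟩
      rw [hFdeg b hb]
      exact bd_zero _ (fun _ _ => rfl)
  choose G hGc hG using hG
  obtain ⟨B, hB⟩ : ∃ B : Finset (Fin n →₀ ℕ), ∀ b T, ind T ≤ b → b - ind T ∈ (p T).support →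
      b ∈ B := by
    refine ⟨Finset.univ.biUnion (fun T => (p T).support.image (fun m => m + ind T)), ?_⟩
    intro b T hb hbT
    rw [Finset.mem_biUnion]
    refine ⟨T, Finset.mem_univ _, ?_⟩
    rw [Finset.mem_image]
    exact ⟨b - ind T, hbT, tsub_add_cancel_of_le hb⟩
  refine ⟨fun T => Ideal.Quotient.mk (mi K S) (∑ b ∈ B, monomial (b - ind T) (G b T)), ?_, ?_⟩
  · intro T hT
    have : ∀ b, G b T = 0 := by
      intro b
      by_contra hne
      exact hT (hGc b T hne).2
    simp [this]
  · rw [kd_mk, hfp]
    funext T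
    rw [mk_eq_iff]
    intro m hm
    rw [coeff_kp]
    have key : ∀ t ∈ Tᶜ, (if t ∈ m.support then coeff (m - Finsupp.single t 1)
        (∑ b ∈ B, monomial (b - ind (insert t T)) (G b (insert t T))) else 0) =
          if m + ind T ∈ B then G (m + ind T) (insert t T) else 0 := by
      intro t ht
      have htT : t ∉ T := by simpa using ht
      by_cases hsupp : t ∈ m.support
      · rw [if_pos hsupp, coeff_sum]
        have h1 : ∀ b ∈ B, coeff (m - Finsupp.single t 1)
            (monomial (b - ind (insert t T)) (G b (insert t T))) =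
              if b = m + ind T then G b (insert t T) else 0 := by
          intro b _
          rw [coeff_monomial]
          by_cases hz : G b (insert t T) = 0
          · rw [hz]; simp
          · have h2 := (hGc b _ hz).1.1
            congr 1
            apply propext
            have h3 : Finsupp.single t 1 ≤ m := by
              rw [Finsupp.single_le_iff]
              rw [Finsupp.mem_support_iff] at hsupp
              omega
            constructor
            · intro h4
              have h5 := tsub_add_cancel_of_le h2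
              rw [h4, ind_insert htT, ← add_assoc, tsub_add_cancel_of_le h3] at h5
              exact h5.symm
            · intro h4
              rw [h4, ind_insert htT, add_comm m, tsub_add_eq_tsub_tsub_swap, add_tsub_cancel_left]
        rw [Finset.sum_congr rfl h1, Finset.sum_ite_eq' B (m + ind T)]
      · rw [if_neg hsupp]
        have h1 : G (m + ind T) (insert t T) = 0 := by
          by_contra hz
          have h2 := (hGc _ _ hz).1.1 t
          rw [ind_apply, if_pos (Finset.mem_insert_self _ _), Finsupp.add_apply, ind_apply,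
            if_neg htT] at h2
          rw [Finsupp.mem_support_iff] at hsupp
          omega
        rw [h1]; simp
    rw [Finset.sum_congr rfl (fun t ht => by rw [key t ht])]
    have hmT : m + ind T - ind T = m := add_tsub_cancel_right _ _
    have hle : ind T ≤ m + ind T := le_add_self
    by_cases hmB : m + ind T ∈ B
    · simp only [if_pos hmB]
      have hP : PB S (m + ind T) T := ⟨hle, by rwa [hmT]⟩
      have := hG (m + ind T) T hP
      rw [hF, if_pos hP, hmT] at this
      exact this
    · simp only [if_neg hmB, mul_zero, Finset.sum_const_zero]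
      by_contra hne
      apply hmB
      apply hB _ T hle
      rw [hmT, mem_support_iff]
      exact fun h => hne h.symm

end Pool.Agent.H5Reg
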