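import Mathlib
import Pool.Agent.H5Reg.Koszul
import Pool.Agent.H5Reg.Comp

set_option autoImplicit false

namespace Pool.Agent.H5Reg

open Classical MvPolynomial

variable {K : Type*} [Field K] {n : ℕ}

/-- the sign given by an injective rank function -/
lemma signOn_rank {V : Type*} [DecidableEq V] {P : Finset V → Prop} (ρ : V → ℕ)
    (hρ : Function.Injective ρ) :
    SignOn P (fun t C => (-1 : K) ^ (C.filter (fun u => ρ u < ρ t)).card) where
  ne C t _ _ _ := by
    apply pow_ne_zero
    exact neg_ne_zero.2 one_ne_zero
  rel C s t hst hs ht _ _ := by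
    have h1 : ∀ (u v : V), u ∉ C → ((insert u C).filter (fun w => ρ w < ρ v)).card =
        (C.filter (fun w => ρ w < ρ v)).card + if ρ u < ρ v then 1 else 0 := by
      intro u v hu
      rw [Finset.filter_insert]
      split_ifs with h
      · rw [Finset.card_insert_of_notMem]
        simp [hu]
      · rfl
    beta_reduce
    rw [h1 s t hs, h1 t s ht]
    have hne : ρ s ≠ ρ t := fun h => hst (hρ h)
    rcases lt_or_gt_of_ne hne with h | h
    · rw [if_pos h, if_neg (by omega), pow_succ]
      ring
    · rw [if_neg (by omega), if_pos h, pow_succ]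
      ring

/-- removing a forced set -/
lemma van_unshift {V : Type*} [Fintype V] [DecidableEq V] {P : Finset V → Prop} {D : Finset V}
    {σ σ' : V → Finset V → K} {c : ℕ}
    (hPD : ∀ C, P C → Disjoint C D)
    (hσ : ∀ t C, t ∉ D → P C → σ' t (C ∪ D) = σ t C)
    (h : Van (fun C => D ⊆ C ∧ P (C \ D)) σ' (c + D.card)) : Van P σ c := by
  intro f hf hcyc
  have hsd : ∀ C, P C → (C ∪ D) \ D = C := fun C hC => by
    rw [Finset.union_sdiff_right, Finset.sdiff_eq_self_of_disjoint (hPD C hC)]
  have hbd : ∀ (f' : Finset V → K), (∀ C, f' C ≠ 0 → Disjoint C D) → ∀ C, P C →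
      bd σ' (fun C => if D ⊆ C then f' (C \ D) else 0) (C ∪ D) = bd σ f' C := by
    intro f' hf' C hC
    unfold bd
    have e : Cᶜ = (C ∪ D)ᶜ ∪ (D \ C) := by
      ext x
      simp only [Finset.mem_compl, Finset.mem_union, Finset.mem_sdiff]
      tauto
    have hdis : Disjoint (C ∪ D)ᶜ (D \ C) := by
      rw [Finset.disjoint_left]
      intro x hx hx'
      simp only [Finset.mem_compl, Finset.mem_union, Finset.mem_sdiff] at hx hx'
      exact hx (Or.inr hx'.1)
    rw [e, Finset.sum_union hdis]
    have h0 : ∑ x ∈ D \ C, σ x C * f' (insert x C) = 0 := by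
      apply Finset.sum_eq_zero
      intro x hx
      rw [Finset.mem_sdiff] at hx
      have : f' (insert x C) = 0 := by
        by_contra hne
        exact Finset.disjoint_left.1 (hf' _ hne) (Finset.mem_insert_self _ _) hx.1
      rw [this, mul_zero]
    rw [h0, add_zero]
    apply Finset.sum_congr rfl
    intro t ht
    simp only [Finset.mem_compl, Finset.mem_union, not_or] at ht
    have h1 : D ⊆ insert t (C ∪ D) :=
      Finset.subset_union_right.trans (Finset.subset_insert _ _)
    have h2 : insert t (C ∪ D) \ D = insert t C := by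
      rw [Finset.insert_sdiff_of_notMem _ ht.2, hsd C hC]
    beta_reduce
    rw [if_pos h1, h2, hσ t C ht.2 hC]
  obtain ⟨g, hg, hg'⟩ := h (fun C => if D ⊆ C then f (C \ D) else 0) (by
    intro C hC
    by_cases hDC : D ⊆ C
    · simp only [hDC, if_true] at hC
      have := hf _ hC
      refine ⟨⟨hDC, this.1⟩, ?_⟩
      have h1 := Finset.card_sdiff_add_card_eq_card hDC
      rw [this.2] at h1
      exact h1.symm
    · simp [hDC] at hC) (by
    rintro C ⟨hDC, hC⟩
    have h1 := hbd f (fun C hC => hPD C (hf C hC).1) (C \ D) hC
    rw [Finset.sdiff_union_of_subset hDC] at h1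
    rw [h1]
    exact hcyc _ hC)
  have hgD : ∀ C, g C ≠ 0 → D ⊆ C := fun C hC => (hg C hC).1.1
  refine ⟨fun C => if Disjoint C D then g (C ∪ D) else 0, ?_, ?_⟩
  · intro C hC
    by_cases hCD : Disjoint C D
    · simp only [hCD, if_true] at hC
      have := hg _ hC
      have e : (C ∪ D) \ D = C := by
        rw [Finset.union_sdiff_right, Finset.sdiff_eq_self_of_disjoint hCD]
      beta_reduce at this
      rw [e, Finset.card_union_of_disjoint hCD] at this
      exact ⟨this.1.2, by omega⟩
    · simp [hCD] at hC
  · intro C hC
    have h1 := hg' (C ∪ D) ⟨Finset.subset_union_right, by rw [hsd C hC]; exact hC⟩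
    rw [if_pos Finset.subset_union_right, hsd C hC] at h1
    rw [← h1]
    rw [← hbd _ _ C hC]
    · apply bd_congr
      intro t ht
      have h2 : D ⊆ insert t (C ∪ D) :=
        Finset.subset_union_right.trans (Finset.subset_insert _ _)
      rw [if_pos h2, if_pos Finset.sdiff_disjoint, Finset.sdiff_union_of_subset h2]
    · intro C hC
      by_contra hCD
      simp [hCD] at hC

variable {G : SimpleGraph (Fin n)}

/-- exponents of the generators of the degree-vector ideal -/
def genS (G : SimpleGraph (Fin n)) : Set (Fin n →₀ ℕ) :=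
  {s | ∃ (i : Fin n) (W : Finset (Fin n)), (∀ j ∈ W, j = i ∨ G.Adj i j) ∧
    W.card = (G.neighborSet i).ncard ∧ s = ind W}

lemma prod_X (W : Finset (Fin n)) :
    (∏ j ∈ W, X j : MvPolynomial (Fin n) K) = monomial (ind W) 1 := by
  induction W using Finset.induction_on with
  | empty =>
    have : ind (∅ : Finset (Fin n)) = 0 := by ext j; simp [ind_apply]
    rw [this]; simp
  | insert a s ha ih =>
    rw [Finset.prod_insert ha, ih, ind_insert ha, X, monomial_mul, one_mul]

lemma degNI_eq : degNI K G = mi K (genS G) := by
  unfold degNI mi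
  congr 1
  ext m
  simp only [Set.mem_ofPred_eq, Set.mem_image, genS]
  constructor
  · rintro ⟨i, W, h1, h2, rfl⟩
    exact ⟨ind W, ⟨i, W, h1, h2, rfl⟩, (prod_X W).symm⟩
  · rintro ⟨s, ⟨i, W, h1, h2, rfl⟩, rfl⟩
    exact ⟨i, W, h1, h2, (prod_X W).symm⟩

lemma cn_card (v : Fin n) : (cn G v).card = (G.neighborSet v).ncard + 1 := by
  have e : cn G v = insert v (G.neighborFinset v) := by
    ext u
    rw [mem_cn, Finset.mem_insert, SimpleGraph.mem_neighborFinset]
  rw [e, Finset.card_insert_of_notMem (by simp), Set.ncard_eq_toFinset_card']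
  rfl

lemma ind_le_iff {W : Finset (Fin n)} {m : Fin n →₀ ℕ} : ind W ≤ m ↔ W ⊆ m.support := by
  constructor
  · intro h j hj
    have := h j
    rw [ind_apply, if_pos hj] at this
    rw [Finsupp.mem_support_iff]
    omega
  · intro h j
    rw [ind_apply]
    split_ifs with hj
    · have := h hj
      rw [Finsupp.mem_support_iff] at this
      omega
    · exact Nat.zero_le _

lemma bad_iff {m : Fin n →₀ ℕ} :
    ¬ Bad (genS G) m ↔ ∀ v, 2 ≤ (m.supportᶜ ∩ cn G v).card := by
  have hc : ∀ v, (m.supportᶜ ∩ cn G v).card + (m.support ∩ cn G v).card =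
      (G.neighborSet v).ncard + 1 := by
    intro v
    rw [← cn_card, ← Finset.card_union_of_disjoint]
    · congr 1
      ext x
      simp only [Finset.mem_union, Finset.mem_inter, Finset.mem_compl]
      tauto
    · rw [Finset.disjoint_left]
      intro x hx hx'
      simp only [Finset.mem_inter, Finset.mem_compl] at hx hx'
      exact hx.1 hx'.1
  constructor
  · intro h v
    by_contra hcon
    apply h
    have h1 : (G.neighborSet v).ncard ≤ (m.support ∩ cn G v).card := by
      have := hc v
      omega
    obtain ⟨W, hW, hWc⟩ := Finset.exists_subset_card_eq h1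
    refine ⟨ind W, ⟨v, W, ?_, hWc, rfl⟩, ind_le_iff.2 (hW.trans Finset.inter_subset_left)⟩
    intro j hj
    exact mem_cn.1 (Finset.mem_inter.1 (hW hj)).2
  · rintro h ⟨s, ⟨i, W, h1, h2, rfl⟩, h3⟩
    rw [ind_le_iff] at h3
    have h4 : W ⊆ m.support ∩ cn G i := fun j hj =>
      Finset.mem_inter.2 ⟨h3 hj, mem_cn.2 (h1 j hj)⟩
    have h5 := Finset.card_le_card h4
    have h6 := hc i
    have h7 := h i
    omega

/-- in a multidegree that is not squarefree the piece is a cone -/
lemma van_nonsq {b : Fin n →₀ ℕ} {s : Fin n} (hs : 2 ≤ b s) (c : ℕ) :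
    Van (PB (genS G) b) (sg K) c := by
  have hsign : SignOn (PB (genS G) b) (sg K) := by
    have := signOn_rank (K := K) (P := PB (genS G) b) (fun u : Fin n => u.val) Fin.val_injective
    exact this
  apply van_cone hsign s
  · rintro T ⟨h1, h2⟩
    refine ⟨?_, ?_⟩
    · intro j
      rw [ind_apply]
      split_ifs with hj
      · rw [Finset.mem_insert] at hj
        rcases hj with rfl | hj
        · omega
        · have := h1 j
          rw [ind_apply, if_pos hj] at this
          exact this
      · exact Nat.zero_le _
    · intro hbad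
      apply h2
      apply hbad.mono
      intro j
      rw [Finsupp.tsub_apply, Finsupp.tsub_apply, ind_apply, ind_apply]
      split_ifs with h3 h4 h4
      · exact le_rfl
      · omega
      · exact absurd (Finset.mem_insert_of_mem h4) h3
      · exact le_rfl
  · rintro T ⟨h1, h2⟩
    refine ⟨?_, ?_⟩
    · intro j
      rw [ind_apply]
      split_ifs with hj
      · have := h1 j
        rw [ind_apply, if_pos (Finset.mem_of_mem_erase hj)] at this
        exact this
      · exact Nat.zero_le _
    · rw [bad_iff] at h2 ⊢
      have e : (b - ind (T.erase s)).support = (b - ind T).support := by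
        ext j
        rw [Finsupp.mem_support_iff, Finsupp.mem_support_iff, Finsupp.tsub_apply,
          Finsupp.tsub_apply, ind_apply, ind_apply]
        by_cases hjs : j = s
        · subst hjs
          split_ifs <;> omega
        · simp only [Finset.mem_erase, hjs, ne_eq, not_false_eq_true, true_and]
      rw [e]; exact h2

/-- the squarefree multidegrees -/
lemma van_sq (hch : Chordal G) (A : Finset (Fin n)) (hA : ∀ a ∈ A, ∀ b ∈ A, ¬ G.Adj a b)
    {b : Fin n →₀ ℕ} (hb : ∀ j, b j ≤ 1) {i d : ℕ} (hdeg : b.degree = i + d)
    (hlt : n < A.card + d + Nat.card G.ConnectedComponent) :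
    Van (PB (genS G) b) (sg K) i := by
  set D : Finset (Fin n) := b.supportᶜ with hD
  have hcardD : D.card + (i + d) = n := by
    have h1 : b.degree = b.support.card := by
      rw [Finsupp.degree_eq_sum, Finset.card_eq_sum_ones, ← Finset.sum_subset (Finset.subset_univ b.support)]
      · apply Finset.sum_congr rfl
        intro j hj
        have := hb j
        rw [Finsupp.mem_support_iff] at hj
        omega
      · intro j _ hj
        rw [Finsupp.mem_support_iff, not_not] at hj
        exact hj
    rw [← hdeg, h1, hD, Finset.card_compl, Fintype.card_fin]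
    have : b.support.card ≤ n := by
      have := Finset.card_le_univ b.support
      rwa [Fintype.card_fin] at this
    omega
  have hPB : ∀ T, PB (genS G) b T ↔ Disjoint T D ∧ ∀ v, 2 ≤ ((T ∪ D) ∩ cn G v).card := by
    intro T
    unfold PB
    rw [ind_le_iff, bad_iff]
    have e1 : T ⊆ b.support ↔ Disjoint T D := by
      rw [hD, disjoint_compl_right_iff]
    rw [e1]
    apply and_congr_right
    intro h1
    have e2 : ((b - ind T).support)ᶜ = T ∪ D := by
      ext j
      rw [Finset.mem_compl, Finsupp.mem_support_iff, not_not, Finsupp.tsub_apply, ind_apply,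
        Finset.mem_union, hD, Finset.mem_compl, Finsupp.mem_support_iff, not_not]
      have := hb j
      split_ifs with h
      · simp only [h, true_or, iff_true]
        omega
      · simp only [h, false_or]
        omega
    rw [e2]
  have hinj : Function.Injective (fun u : Fin n => if u ∈ D then u.val + n else u.val) := by
    intro u v huv
    have h1 := u.isLt
    have h2 := v.isLt
    beta_reduce at huv
    apply Fin.ext
    split_ifs at huv <;> omega
  have hcomp : Nat.card G.ConnectedComponent = Fintype.card G.ConnectedComponent :=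
    Nat.card_eq_fintype_card
  have hall := van_all (K := K) hch A hA D
    (fun t C => (-1 : K) ^ (C.filter (fun u => (if u ∈ D then u.val + n else u.val) <
      (if t ∈ D then t.val + n else t.val))).card) (i + D.card) (by omega)
    (signOn_rank _ hinj)
  refine van_unshift (D := D) (fun C hC => ((hPB C).1 hC).1) ?_
    (van_congr (fun C => ?_) hall)
  · intro t C ht hC
    have hCD := ((hPB C).1 hC).1
    beta_reduce
    unfold sg
    congr 2
    ext u
    simp only [Finset.mem_filter, Finset.mem_union, if_neg ht]
    constructor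
    · rintro ⟨h1 | h1, h2⟩
      · rw [if_neg (Finset.disjoint_left.1 hCD h1)] at h2
        exact ⟨h1, h2⟩
      · rw [if_pos h1] at h2
        have := t.isLt
        omega
    · rintro ⟨h1, h2⟩
      rw [if_neg (Finset.disjoint_left.1 hCD h1)]
      exact ⟨Or.inl h1, h2⟩
  · rw [hPB]
    constructor
    · rintro ⟨h1, h2⟩
      refine ⟨h1, Finset.sdiff_disjoint, ?_⟩
      rwa [Finset.sdiff_union_of_subset h1]
    · rintro ⟨h1, _, h2⟩
      rw [Finset.sdiff_union_of_subset h1] at h2
      exact ⟨h1, h2⟩

/-- the main inequality for Betti numbers -/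
theorem betti_bound (hch : Chordal G) {i d : ℕ} (h : BettiNe (degNI K G) i d) :
    ((d + Nat.card G.ConnectedComponent : ℕ) : ℕ∞) ≤ G.vertexCoverNum := by
  obtain ⟨s, hs, hcov⟩ := G.vertexCoverNum_exists
  rw [← hs]
  have hfin : s.Finite := Set.toFinite s
  rw [Set.Finite.encard_eq_coe_toFinset_card hfin]
  norm_cast
  by_contra hlt
  push Not at hlt
  rw [degNI_eq] at h
  refine not_bettiNe ?_ h
  intro b hb
  by_cases hsq : ∀ j, b j ≤ 1
  · refine van_sq hch (hfin.toFinset)ᶜ ?_ hsq hb ?_
    · intro a ha c hc hac
      rw [Finset.mem_compl, Set.Finite.mem_toFinset] at ha hc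
      rcases hcov hac with h | h
      · exact ha h
      · exact hc h
    · rw [Finset.card_compl, Fintype.card_fin]
      have : hfin.toFinset.card ≤ n := by
        have := Finset.card_le_univ hfin.toFinset
        rwa [Fintype.card_fin] at this
      omega
  · push Not at hsq
    obtain ⟨j, hj⟩ := hsq
    exact van_nonsq (s := j) hj i

/-- the theorem -/
theorem reg_bound (hch : Chordal G) :
    reg (degNI K G) + (Nat.card G.ConnectedComponent : WithBot ℕ∞) ≤
      (G.vertexCoverNum : WithBot ℕ∞) := by
  by_cases hex : ∃ i d, BettiNe (degNI K G) i d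
  · obtain ⟨i0, d0, h0⟩ := hex
    obtain ⟨s, hs, hcov⟩ := G.vertexCoverNum_exists
    have hfin : s.Finite := Set.toFinite s
    rw [Set.Finite.encard_eq_coe_toFinset_card hfin] at hs
    have key : ∀ i d, BettiNe (degNI K G) i d →
        d + Nat.card G.ConnectedComponent ≤ hfin.toFinset.card := by
      intro i d h
      have := betti_bound hch h
      rw [← hs] at this
      exact_mod_cast this
    rw [← hs]
    have h1 : reg (degNI K G) ≤
        ((hfin.toFinset.card - Nat.card G.ConnectedComponent : ℕ) : WithBot ℕ∞) := by
      unfold reg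
      refine iSup_le fun i => iSup_le fun d => iSup_le fun h => ?_
      have := key i d h
      exact_mod_cast (by omega : d ≤ hfin.toFinset.card - Nat.card G.ConnectedComponent)
    refine (add_le_add_left h1 _).trans ?_
    have h2 := key i0 d0 h0
    rw [← Nat.cast_add, Nat.sub_add_cancel (by omega)]
    exact le_rfl
  · push Not at hex
    have : reg (degNI K G) = ⊥ := by
      unfold reg
      simp [hex]
    rw [this, WithBot.bot_add]
    exact bot_le

end Pool.Agent.H5Reg
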