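import Mathlib
import Pool.Agent.H5Reg.Defs

set_option autoImplicit false

/-!
Checks on the definitions: the Koszul differential squares to zero, and `β_{0,0}(S/I)` is
nonzero for every ideal `I` contained in `(x_1, ..., x_n)`, so that the regularity of `S/I` is
at least `0` for such an ideal.
-/

namespace Pool.Agent.H5Reg

open MvPolynomial

variable {K : Type*} [Field K] {n : ℕ}

lemma filter_insert_card {T : Finset (Fin n)} {s t : Fin n} (hs : s ∉ T) :
    ((insert s T).filter (fun w => w < t)).card =
      (T.filter (fun w => w < t)).card + if s < t then 1 else 0 := by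
  rw [Finset.filter_insert]
  split_ifs with h
  · rw [Finset.card_insert_of_notMem]
    simp [hs]
  · rfl

/-- the Koszul differential squares to zero -/
theorem kd_kd (I : Ideal (MvPolynomial (Fin n) K)) (f : KChain I) : kd I (kd I f) = 0 := by
  funext T
  unfold kd
  simp only [Finset.mul_sum, Pi.zero_apply]
  rw [Finset.sum_sigma']
  apply Finset.sum_involution (fun (x : (_ : Fin n) × Fin n) _ => (⟨x.2, x.1⟩ : (_ : Fin n) × Fin n))
  · rintro ⟨t, s⟩ hx
    simp only [Finset.mem_sigma, Finset.mem_compl, Finset.mem_insert, not_or] at hx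
    obtain ⟨htC, hst, hsC⟩ := hx
    simp only
    rw [Finset.insert_comm t s T, filter_insert_card htC, filter_insert_card hsC]
    rcases lt_or_gt_of_ne hst with h | h
    · rw [if_neg (by exact not_lt.2 h.le), if_pos h, pow_succ]
      ring
    · rw [if_pos h, if_neg (by exact not_lt.2 h.le), pow_succ]
      ring
  · rintro ⟨t, s⟩ hx _ h
    simp only [Finset.mem_sigma, Finset.mem_compl, Finset.mem_insert, not_or] at hx
    have := congrArg Sigma.fst h
    exact hx.2.1 this
  · rintro ⟨t, s⟩ hx
    simp only [Finset.mem_sigma, Finset.mem_compl, Finset.mem_insert, not_or] at hx ⊢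
    exact ⟨hx.2.2, Ne.symm hx.2.1, hx.1⟩
  · rintro ⟨t, s⟩ hx
    rfl

/-- `β_{0,0}(S/I) ≠ 0` if all elements of `I` have constant coefficient zero -/
theorem bettiNe_zero (I : Ideal (MvPolynomial (Fin n) K)) (hI : ∀ p ∈ I, constantCoeff p = 0) :
    BettiNe I 0 0 := by
  refine ⟨fun T => if T = ∅ then 1 else 0, ?_, ?_, ?_, ?_⟩
  · intro T hT
    have : T ≠ ∅ := fun h => hT (by rw [h]; rfl)
    simp [this]
  · intro T
    by_cases h : T = ∅
    · exact ⟨1, isHomogeneous_one _ _, by simp [h]⟩
    · exact ⟨0, isHomogeneous_zero _ _ _, by simp [h]⟩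
  · funext T
    unfold kd
    simp
  · rintro ⟨g, _, hg⟩
    have h1 := congrFun hg ∅
    simp only [kd, if_true] at h1
    choose p hp using fun T => Ideal.Quotient.mk_surjective (g T)
    have h2 : Ideal.Quotient.mk I (∑ t ∈ (∅ : Finset (Fin n))ᶜ,
        (-1) ^ ((∅ : Finset (Fin n)).filter (fun u => u < t)).card * X t * p (insert t ∅) - 1) =
          0 := by
      rw [map_sub, map_sum, map_one, sub_eq_zero, ← h1]
      apply Finset.sum_congr rfl
      intro t _
      rw [map_mul, map_mul, map_pow, map_neg, map_one, hp]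
    rw [Ideal.Quotient.eq_zero_iff_mem] at h2
    have h3 := hI _ h2
    rw [map_sub, map_sum, map_one] at h3
    have h4 : ∀ t ∈ (∅ : Finset (Fin n))ᶜ, constantCoeff
        ((-1) ^ ((∅ : Finset (Fin n)).filter (fun u => u < t)).card * X t * p (insert t ∅) :
          MvPolynomial (Fin n) K) = 0 := by
      intro t _
      rw [map_mul, map_mul, constantCoeff_X, mul_zero, zero_mul]
    rw [Finset.sum_eq_zero h4] at h3
    simp at h3

end Pool.Agent.H5Reg
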